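import Pool.Agent.H925R.Two.Main

/-!
# The counting theorem, in terms of triples
-/

set_option autoImplicit false
set_option linter.unusedVariables false

namespace Pool.Agent.H925R.Two

open Finset
open Pool.Agent.H328R2.ABC

/-- the condition on the triple `(x, (y, z))` -/
def TCond (K : ℝ) (V N : ℕ) (Λ : ℝ) (t : ℕ × (ℕ × ℕ)) : Prop :=
  0 < t.1 ∧ 0 < t.2.1 ∧ 0 < t.2.2 ∧ Nat.Coprime t.2.1 t.2.2 ∧
    (t.1 + t.2.1 = t.2.2 ∨ t.1 + t.2.2 = t.2.1 ∨ t.2.1 + t.2.2 = t.1) ∧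
    t.1 ≤ N ∧ t.2.1 ≤ N ∧ t.2.2 ≤ N ∧ (∃ s : ℕ, 0 < s ∧ t.1 = V * s ^ 2) ∧
    (rad t.2.1 : ℝ) * rad t.2.2 * Λ ≤ K * ((t.2.1 ^ 2 * t.2.2 : ℕ) : ℝ) ^ ((1 : ℝ) / 6)

theorem core_triples (K ε : ℝ) (hε : 0 < ε) :
    ∃ C : ℝ, 0 < C ∧ ∀ V : ℕ, 0 < V → ∀ N : ℕ, 1 ≤ N → ∀ Λ : ℝ, 1 ≤ Λ →
      ∀ S : Finset (ℕ × (ℕ × ℕ)), (∀ t ∈ S, TCond K V N Λ t) →
      (S.card : ℝ) ≤ C * (N : ℝ) ^ (7 / 16 + ε) * Λ ^ (-(3 / 8) : ℝ) := by
  classical
  set roles : Finset (Fin 3 × Fin 3 × Fin 3) :=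
    univ.filter (fun x => x.1 ≠ x.2.1 ∧ x.1 ≠ x.2.2 ∧ x.2.1 ≠ x.2.2) with hroles
  have hcore : ∀ x ∈ roles, ∃ C : ℝ, 0 < C ∧ ∀ V : ℕ, 0 < V → ∀ X : ℕ, 1 ≤ X → ∀ Λ : ℝ, 1 ≤ Λ →
      ∀ S : Finset (ℕ × ℕ),
      (∀ t ∈ S, Adm X t ∧ isX V x.1 t.1 t.2 ∧
        (rad (side t.1 t.2 x.2.1) : ℝ) * rad (side t.1 t.2 x.2.2) * Λ ≤
          K * (((side t.1 t.2 x.2.1) ^ 2 * side t.1 t.2 x.2.2 : ℕ) : ℝ) ^ ((1 : ℝ) / 6)) →
      (S.card : ℝ) ≤ C * (X : ℝ) ^ (7 / 16 + ε) * Λ ^ (-(3 / 8) : ℝ) := by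
    intro x hx
    rw [hroles, mem_filter] at hx
    exact core_role x.1 x.2.1 x.2.2 hx.2.1 hx.2.2.1 hx.2.2.2 K ε hε
  choose! C hC h using hcore
  refine ⟨∑ x ∈ roles, C x + 1, by
    have := sum_nonneg (fun x hx => (hC x hx).le)
    linarith, ?_⟩
  intro V hV N hN Λ hΛ S hS
  have hΛ0 : 0 < Λ := by linarith
  let T : Fin 3 × Fin 3 × Fin 3 → Finset (ℕ × ℕ) := fun x =>
    (range (N + 1) ×ˢ range (N + 1)).filter (fun t => Adm N t ∧ isX V x.1 t.1 t.2 ∧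
        (rad (side t.1 t.2 x.2.1) : ℝ) * rad (side t.1 t.2 x.2.2) * Λ ≤
          K * (((side t.1 t.2 x.2.1) ^ 2 * side t.1 t.2 x.2.2 : ℕ) : ℝ) ^ ((1 : ℝ) / 6))
  let g : Fin 3 × Fin 3 × Fin 3 → ℕ × ℕ → ℕ × (ℕ × ℕ) := fun x p =>
    (side p.1 p.2 x.1, (side p.1 p.2 x.2.1, side p.1 p.2 x.2.2))
  have hsub : S ⊆ roles.biUnion (fun x => (T x).image (g x)) := by
    rintro ⟨x, y, z⟩ ht
    obtain ⟨hx0, hy0, hz0, hcop, hrel, hxN, hyN, hzN, hs, hr⟩ := hS _ ht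
    simp only at hx0 hy0 hz0 hcop hrel hxN hyN hzN hs hr
    rw [mem_biUnion]
    -- a general step
    have step : ∀ (w : Fin 3 × Fin 3 × Fin 3) (a b : ℕ), w ∈ roles → 0 < a → a ≤ b →
        Nat.Coprime a b → a + b ≤ N → side a b w.1 = x → side a b w.2.1 = y →
        side a b w.2.2 = z → ∃ w ∈ roles, (x, y, z) ∈ (T w).image (g w) := by
      intro w a b hw ha hab hc hN' e1 e2 e3
      refine ⟨w, hw, ?_⟩
      rw [mem_image]
      refine ⟨(a, b), ?_, ?_⟩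
      · simp only [T]
        rw [mem_filter, mem_product, mem_range, mem_range]
        refine ⟨⟨by simp only; omega, by simp only; omega⟩, ⟨ha, hab, hc, hN'⟩, ?_, ?_⟩
        · unfold isX
          simp only
          rw [e1]
          exact hs
        · simp only
          rw [e2, e3]
          exact hr
      · simp only [g]
        rw [e1, e2, e3]
    rcases hrel with h1 | h1 | h1
    · -- z largest
      have hcxy : Nat.Coprime x y := by
        rw [← h1] at hcop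
        have : Nat.Coprime y (x + y) := hcop
        simpa [Nat.coprime_comm] using this
      rcases le_total x y with h2 | h2
      · exact step (0, 1, 2) x y (by rw [hroles, mem_filter]; exact ⟨mem_univ _, by decide⟩) hx0 h2
          hcxy (by omega) rfl rfl h1
      · exact step (1, 0, 2) y x (by rw [hroles, mem_filter]; exact ⟨mem_univ _, by decide⟩) hy0 h2
          hcxy.symm (by omega) rfl rfl (by show y + x = z; omega)
    · -- y largest
      have hcxz : Nat.Coprime x z := by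
        rw [← h1] at hcop
        have : Nat.Coprime (x + z) z := hcop
        simpa using this
      rcases le_total x z with h2 | h2
      · exact step (0, 2, 1) x z (by rw [hroles, mem_filter]; exact ⟨mem_univ _, by decide⟩) hx0 h2
          hcxz (by omega) rfl h1 rfl
      · exact step (1, 2, 0) z x (by rw [hroles, mem_filter]; exact ⟨mem_univ _, by decide⟩) hz0 h2
          hcxz.symm (by omega) rfl (by show z + x = y; omega) rfl
    · -- x largest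
      rcases le_total y z with h2 | h2
      · exact step (2, 0, 1) y z (by rw [hroles, mem_filter]; exact ⟨mem_univ _, by decide⟩) hy0 h2
          hcop (by omega) h1 rfl rfl
      · exact step (2, 1, 0) z y (by rw [hroles, mem_filter]; exact ⟨mem_univ _, by decide⟩) hz0 h2
          hcop.symm (by omega) (by show z + y = x; omega) rfl rfl
  have h1 : (S.card : ℝ) ≤ ∑ x ∈ roles, ((T x).card : ℝ) := by
    have := (card_le_card hsub).trans (card_biUnion_le.trans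
      (sum_le_sum (fun x _ => card_image_le)))
    exact_mod_cast this
  have h2 : ∑ x ∈ roles, ((T x).card : ℝ) ≤
      ∑ x ∈ roles, C x * ((N : ℝ) ^ (7 / 16 + ε) * Λ ^ (-(3 / 8) : ℝ)) := by
    refine sum_le_sum (fun x hx => ?_)
    rw [← mul_assoc]
    refine h x hx V hV N hN Λ hΛ (T x) (fun t ht => ?_)
    simp only [T] at ht
    rw [mem_filter] at ht
    exact ht.2
  have h3 : 0 ≤ (N : ℝ) ^ (7 / 16 + ε) * Λ ^ (-(3 / 8) : ℝ) := by positivity
  rw [← sum_mul] at h2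
  calc (S.card : ℝ) ≤ _ := h1.trans h2
    _ ≤ (∑ x ∈ roles, C x + 1) * ((N : ℝ) ^ (7 / 16 + ε) * Λ ^ (-(3 / 8) : ℝ)) := by nlinarith
    _ = _ := by ring

end Pool.Agent.H925R.Two
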