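import Pool.Agent.H925R.Two.Data
import Pool.Agent.H925R.Two.Triples
import Pool.Agent.H510R2.Div

/-!
# Counting: all curves with a rational 2-torsion point, twists included
-/

set_option autoImplicit false
set_option linter.unusedVariables false

namespace Pool.Agent.H925R.Two

open Finset
open Pool.Agent.H328R2.ABC
open Pool.Agent.H925R.Szpiro (D IsMin condS int_root)

/-- the squarefree part -/
noncomputable def sqf (n : ℕ) : ℕ := (Nat.sq_mul_squarefree n).choose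

theorem sqf_spec (n : ℕ) (hn : 0 < n) : ∃ r : ℕ, 0 < r ∧ r ^ 2 * sqf n = n ∧
    Squarefree (sqf n) ∧ 0 < sqf n := by
  obtain ⟨r, h1, h2⟩ := (Nat.sq_mul_squarefree n).choose_spec
  have h1' : r ^ 2 * sqf n = n := h1
  refine ⟨r, ?_, h1', h2, ?_⟩
  · apply Nat.pos_of_ne_zero
    rintro rfl
    rw [zero_pow (by norm_num), zero_mul] at h1'
    omega
  · apply Nat.pos_of_ne_zero
    intro h
    rw [h, mul_zero] at h1'
    omega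

theorem sqf_sq (n x m : ℕ) (hn : 0 < n) (hx : 0 < x) (h : x * n = m ^ 2) :
    ∃ s : ℕ, 0 < s ∧ x = sqf n * s ^ 2 := by
  obtain ⟨r, hr0, hr, hsq, hpos⟩ := sqf_spec n hn
  have h1 : r ^ 2 ∣ m ^ 2 := by
    rw [← h, ← hr]
    exact ⟨x * sqf n, by ring⟩
  obtain ⟨m', hm'⟩ := (Nat.pow_dvd_pow_iff (by norm_num)).mp h1
  have h2 : x * sqf n = m' ^ 2 := by
    have : r ^ 2 * (x * sqf n) = r ^ 2 * m' ^ 2 := by
      calc r ^ 2 * (x * sqf n) = x * (r ^ 2 * sqf n) := by ring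
        _ = m ^ 2 := by rw [hr, h]
        _ = r ^ 2 * m' ^ 2 := by rw [hm']; ring
    exact Nat.eq_of_mul_eq_mul_left (by positivity) this
  have h3 : sqf n ∣ m' ^ 2 := by rw [← h2]; exact dvd_mul_left _ _
  obtain ⟨s, hs⟩ := (hsq.dvd_pow_iff_dvd (by norm_num)).mp h3
  have h4 : x = sqf n * s ^ 2 := by
    have : sqf n * x = sqf n * (sqf n * s ^ 2) := by
      calc sqf n * x = x * sqf n := by ring
        _ = m' ^ 2 := h2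
        _ = sqf n * (sqf n * s ^ 2) := by rw [hs]; ring
    exact Nat.eq_of_mul_eq_mul_left hpos this
  refine ⟨s, ?_, h4⟩
  apply Nat.pos_of_ne_zero
  rintro rfl
  rw [zero_pow (by norm_num), mul_zero] at h4
  omega

/-- the parameter `Λ` -/
noncomputable def Lam (g1 gb g3 : ℕ) : ℝ :=
  (g1 : ℝ) ^ ((3 : ℝ) / 2) * gb * (g3 : ℝ) ^ ((1 : ℝ) / 2)

theorem Lam_one (g1 gb g3 : ℕ) (h1 : 0 < g1) (hb : 0 < gb) (h3 : 0 < g3) : 1 ≤ Lam g1 gb g3 := by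
  have a1 : (1 : ℝ) ≤ g1 := by exact_mod_cast h1
  have ab : (1 : ℝ) ≤ gb := by exact_mod_cast hb
  have a3 : (1 : ℝ) ≤ g3 := by exact_mod_cast h3
  have b1 : (1 : ℝ) ≤ (g1 : ℝ) ^ ((3 : ℝ) / 2) := Real.one_le_rpow a1 (by norm_num)
  have b3 : (1 : ℝ) ≤ (g3 : ℝ) ^ ((1 : ℝ) / 2) := Real.one_le_rpow a3 (by norm_num)
  unfold Lam
  have c1 : (1 : ℝ) ≤ (g1 : ℝ) ^ ((3 : ℝ) / 2) * gb := by nlinarith
  nlinarith

/-- the exponents of the three parameters are at least one -/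
theorem weight_bound (θ M : ℝ) (hθ : 7 / 16 ≤ θ) (hM : 0 ≤ M) (g1 gb g3 : ℕ) (h1 : 0 < g1)
    (hb : 0 < gb) (h3 : 0 < g3) :
    (M / ((g1 : ℝ) * gb ^ 2 * g3 ^ 3)) ^ θ * Lam g1 gb g3 ^ (-(3 / 8) : ℝ) ≤
      M ^ θ * (1 / (g1 : ℝ) * (1 / (gb : ℝ) * (1 / (g3 : ℝ)))) := by
  have a1 : (1 : ℝ) ≤ g1 := by exact_mod_cast h1
  have ab : (1 : ℝ) ≤ gb := by exact_mod_cast hb
  have a3 : (1 : ℝ) ≤ g3 := by exact_mod_cast h3
  set x : ℝ := (g1 : ℝ)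
  set y : ℝ := (gb : ℝ)
  set w : ℝ := (g3 : ℝ)
  have x0 : 0 < x := by linarith
  have y0 : 0 < y := by linarith
  have w0 : 0 < w := by linarith
  set Y : ℝ := x * y ^ 2 * w ^ 3 with hY
  have hY1 : 1 ≤ Y := by
    have e1 : (1 : ℝ) ≤ y ^ 2 := one_le_pow₀ ab
    have e2 : (1 : ℝ) ≤ w ^ 3 := one_le_pow₀ a3
    have e3 : 1 ≤ x * y ^ 2 := by nlinarith
    rw [hY]
    nlinarith
  have hY0 : 0 < Y := by linarith
  rw [Real.div_rpow hM hY0.le, div_mul_eq_mul_div, mul_div_assoc]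
  apply mul_le_mul_of_nonneg_left _ (by positivity)
  have hL0 : 0 < Lam g1 gb g3 := by
    have := Lam_one g1 gb g3 h1 hb h3
    linarith
  rw [Real.rpow_neg hL0.le, div_eq_mul_inv, ← mul_inv]
  have e0 : (1 : ℝ) / x * (1 / y * (1 / w)) = (x * y * w)⁻¹ := by
    field_simp
  rw [e0]
  apply inv_anti₀ (by positivity)
  have e1 : Y ^ ((7 : ℝ) / 16) ≤ Y ^ θ := Real.rpow_le_rpow_of_exponent_le hY1 hθ
  have e2 : Y ^ ((7 : ℝ) / 16) = x ^ ((7 : ℝ) / 16) * y ^ ((7 : ℝ) / 8) * w ^ ((21 : ℝ) / 16) := by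
    rw [hY, Real.mul_rpow (by positivity) (by positivity), Real.mul_rpow (by positivity)
      (by positivity), ← Real.rpow_natCast y 2, ← Real.rpow_natCast w 3, ← Real.rpow_mul y0.le,
      ← Real.rpow_mul w0.le]
    norm_num
  have e3 : Lam g1 gb g3 ^ ((3 : ℝ) / 8) =
      x ^ ((9 : ℝ) / 16) * y ^ ((3 : ℝ) / 8) * w ^ ((3 : ℝ) / 16) := by
    have e9 : Lam g1 gb g3 = x ^ ((3 : ℝ) / 2) * y * w ^ ((1 : ℝ) / 2) := rfl
    rw [e9, Real.mul_rpow (by positivity) (by positivity), Real.mul_rpow (by positivity)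
      (by positivity), ← Real.rpow_mul x0.le, ← Real.rpow_mul w0.le]
    norm_num
  have e4 : x = x ^ ((7 : ℝ) / 16) * x ^ ((9 : ℝ) / 16) := by
    rw [← Real.rpow_add x0]; norm_num
  have e5 : y ≤ y ^ ((7 : ℝ) / 8) * y ^ ((3 : ℝ) / 8) := by
    rw [← Real.rpow_add y0]
    calc y = y ^ (1 : ℝ) := (Real.rpow_one _).symm
      _ ≤ _ := Real.rpow_le_rpow_of_exponent_le ab (by norm_num)
  have e6 : w ≤ w ^ ((21 : ℝ) / 16) * w ^ ((3 : ℝ) / 16) := by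
    rw [← Real.rpow_add w0]
    calc w = w ^ (1 : ℝ) := (Real.rpow_one _).symm
      _ ≤ _ := Real.rpow_le_rpow_of_exponent_le a3 (by norm_num)
  calc x * y * w ≤ (x ^ ((7 : ℝ) / 16) * x ^ ((9 : ℝ) / 16)) * (y ^ ((7 : ℝ) / 8) * y ^ ((3 : ℝ) / 8)) *
        (w ^ ((21 : ℝ) / 16) * w ^ ((3 : ℝ) / 16)) := by
        rw [← e4]
        gcongr
    _ = Y ^ ((7 : ℝ) / 16) * Lam g1 gb g3 ^ ((3 : ℝ) / 8) := by rw [e2, e3]; ring
    _ ≤ Y ^ θ * Lam g1 gb g3 ^ ((3 : ℝ) / 8) := by gcongr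
    _ = _ := by ring

theorem sum_keys (s T : Finset ℕ) (f : ℕ → ℝ) :
    ∑ κ ∈ s ×ˢ (T ×ˢ (T ×ˢ T)), f κ.2.1 * (f κ.2.2.1 * f κ.2.2.2) =
      s.card * (∑ n ∈ T, f n) ^ 3 := by
  rw [sum_product]
  simp only [sum_product]
  simp only [← mul_sum, ← sum_mul, sum_const, nsmul_eq_mul]
  ring

/-- a rational 2-torsion point -/
def HasRoot (a b : ℤ) : Prop := ∃ r : ℚ, r ^ 3 - a * r - b = 0

/-- the exceptional models -/
def ExcT (K : ℝ) (X : ℕ) : Set (ℤ × ℤ) :=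
  {q | IsMin q.1 q.2 ∧ HasRoot q.1 q.2 ∧ |q.1| ≤ (X : ℤ) ^ 2 ∧ |q.2| ≤ (X : ℤ) ^ 3 ∧
    (condS q.1 q.2 : ℝ) ^ 6 < K * |((D q.1 q.2 : ℤ) : ℝ)|}

theorem root_bound (a b e : ℤ) (X : ℕ) (hX : 1 ≤ X) (ha : |a| ≤ (X : ℤ) ^ 2)
    (hb : |b| ≤ (X : ℤ) ^ 3) (he : e ^ 3 = a * e + b) : |e| ≤ 2 * X := by
  by_contra hcon
  push Not at hcon
  have hX1 : (1 : ℤ) ≤ X := by exact_mod_cast hX
  have h1 : |e| ^ 3 ≤ (X : ℤ) ^ 2 * |e| + (X : ℤ) ^ 3 := by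
    calc |e| ^ 3 = |e ^ 3| := (abs_pow e 3).symm
      _ = |a * e + b| := by rw [he]
      _ ≤ |a * e| + |b| := abs_add_le _ _
      _ = |a| * |e| + |b| := by rw [abs_mul]
      _ ≤ _ := by
          have := mul_le_mul_of_nonneg_right ha (abs_nonneg e)
          linarith
  set t := |e|
  have h2 : (2 * (X : ℤ)) ^ 2 < t ^ 2 := pow_lt_pow_left₀ hcon (by positivity) (by norm_num)
  have h3 : (2 * (X : ℤ)) ^ 2 * t ≤ t ^ 3 := by nlinarith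
  nlinarith [sq_nonneg (X : ℤ)]

/-- the model attached to `((sA, sB), (Ga, (κ, t)))`, `κ = (c, (G1, (Gb, G3)))`,
`t = (x, (y, z))` -/
def mdl2 (u : (ℤ × ℤ) × (ℕ × ((ℕ × (ℕ × (ℕ × ℕ))) × (ℕ × (ℕ × ℕ))))) : ℤ × ℤ :=
  let κ := u.2.2.1
  let t := u.2.2.2
  let G : ℕ := κ.1 * κ.2.1 * (u.2.1 * κ.2.2.1) ^ 2 * κ.2.2.2 ^ 3
  let e : ℤ := u.1.1 * ((Nat.sqrt (G * t.1) : ℕ) : ℤ) / 3
  let a : ℤ := 3 * e ^ 2 - u.1.2 * ((G : ℤ) * (t.2.1 : ℤ)) / 4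
  (a, e ^ 3 - a * e)

theorem rad_ineq (R ga g1 gb g3 c S y z Dd K : ℝ) (hR : 0 ≤ R) (hga : 0 < ga) (hg1 : 0 < g1)
    (hgb : 0 < gb) (hg3 : 0 < g3) (hc : 0 ≤ c) (hc6 : c ≤ 6 ^ 5) (hy : 0 ≤ y) (hz : 0 ≤ z)
    (hK : 0 ≤ K)
    (h1 : R * (ga * (g1 * g3 * gb)) * (g1 * g3 * gb) ≤ 6 * S) (h2 : S ^ 6 < K * Dd)
    (h3 : 16 * Dd = (c * g1 * (ga * gb) ^ 2 * g3 ^ 3) ^ 3 * (y ^ 2 * z)) :
    R ^ 6 * (g1 ^ 9 * gb ^ 6 * g3 ^ 3) ≤ (6 ^ 21 * K / 16) * (y ^ 2 * z) := by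
  set P : ℝ := ga ^ 6 * g1 ^ 3 * gb ^ 6 * g3 ^ 9 with hP
  have hP0 : 0 < P := by positivity
  have e1 : (R * (ga * (g1 * g3 * gb)) * (g1 * g3 * gb)) ^ 6 ≤ (6 * S) ^ 6 :=
    pow_le_pow_left₀ (by positivity) h1 6
  have e2 : (c * g1 * (ga * gb) ^ 2 * g3 ^ 3) ^ 3 ≤ (6 ^ 5 * g1 * (ga * gb) ^ 2 * g3 ^ 3) ^ 3 := by
    gcongr
  have e3 : 16 * Dd ≤ (6 ^ 5 * g1 * (ga * gb) ^ 2 * g3 ^ 3) ^ 3 * (y ^ 2 * z) := by
    rw [h3]
    exact mul_le_mul_of_nonneg_right e2 (by positivity)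
  have e4 : P * (R ^ 6 * (g1 ^ 9 * gb ^ 6 * g3 ^ 3)) ≤ P * ((6 ^ 21 * K / 16) * (y ^ 2 * z)) := by
    calc P * (R ^ 6 * (g1 ^ 9 * gb ^ 6 * g3 ^ 3))
        = (R * (ga * (g1 * g3 * gb)) * (g1 * g3 * gb)) ^ 6 := by rw [hP]; ring
      _ ≤ (6 * S) ^ 6 := e1
      _ = 6 ^ 6 * S ^ 6 := by ring
      _ ≤ 6 ^ 6 * (K * Dd) := by linarith
      _ = 6 ^ 6 * K / 16 * (16 * Dd) := by ring
      _ ≤ 6 ^ 6 * K / 16 * ((6 ^ 5 * g1 * (ga * gb) ^ 2 * g3 ^ 3) ^ 3 * (y ^ 2 * z)) := by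
          apply mul_le_mul_of_nonneg_left e3 (by positivity)
      _ = P * ((6 ^ 21 * K / 16) * (y ^ 2 * z)) := by rw [hP]; ring
  exact le_of_mul_le_mul_left e4 hP0

/-- the finite set of `(κ, t)` -/
noncomputable def FF (K : ℝ) (M : ℕ) : Finset ((ℕ × (ℕ × (ℕ × ℕ))) × (ℕ × (ℕ × ℕ))) := by
  classical
  exact (((Icc 1 (6 ^ 5)) ×ˢ (Icc 1 M ×ˢ (Icc 1 M ×ˢ Icc 1 M))) ×ˢ
    (Icc 1 M ×ˢ (Icc 1 M ×ˢ Icc 1 M))).filter
    (fun u => TCond K (sqf (u.1.1 * u.1.2.1 * u.1.2.2.2))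
      (M / (u.1.2.1 * u.1.2.2.1 ^ 2 * u.1.2.2.2 ^ 3)) (Lam u.1.2.1 u.1.2.2.1 u.1.2.2.2) u.2)

theorem data_mem (K : ℝ) (hK : 0 < K) (X : ℕ) (hX : 1 ≤ X) (a b : ℤ) (h : (a, b) ∈ ExcT K X)
    (hb0 : b ≠ 0) :
    ∃ (sA sB : ℤ) (Ga : ℕ) (u : (ℕ × (ℕ × (ℕ × ℕ))) × (ℕ × (ℕ × ℕ))),
      (sA = 1 ∨ sA = -1) ∧ (sB = 1 ∨ sB = -1) ∧ Ga ∣ u.2.2.1 * u.2.2.2 ∧
      u ∈ FF ((6 ^ 21 * K / 16) ^ ((1 : ℝ) / 6)) (88 * X ^ 2) ∧
      mdl2 ((sA, sB), (Ga, u)) = (a, b) := by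
  classical
  obtain ⟨hmin, ⟨r, hr⟩, ha, hb, hbig⟩ := h
  simp only at hmin hr ha hb hbig
  obtain ⟨e, rfl⟩ : ∃ e : ℤ, (e : ℚ) = r := by
    refine int_root 0 (-a) (-b) r ?_
    push_cast
    linear_combination hr
  have he : e ^ 3 = a * e + b := by
    have : (e : ℚ) ^ 3 = a * e + b := by linear_combination hr
    exact_mod_cast this
  have he0 : e ≠ 0 := by
    rintro rfl
    apply hb0
    linarith
  obtain ⟨c, G1, Ga, Gb, G3, x, y, z, sB, hsB, hc, hc6, hG1, hGa, hGb, hG3, hx0, hy0, hz0, hyz,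
    hrel, hxe, hye, hze, hdvd, hcond⟩ := two_data a b e hmin he he0
  set G : ℕ := c * G1 * (Ga * Gb) ^ 2 * G3 ^ 3 with hG
  have hGpos : 0 < G := by rw [hG]; positivity
  have hGge : G1 * Gb ^ 2 * G3 ^ 3 ≤ G := by
    rw [hG]
    calc G1 * Gb ^ 2 * G3 ^ 3 = 1 * G1 * (1 * Gb) ^ 2 * G3 ^ 3 := by ring
      _ ≤ c * G1 * (Ga * Gb) ^ 2 * G3 ^ 3 := by gcongr <;> omega
  -- sizes
  have heX := root_bound a b e X hX ha hb he
  have he2 : e ^ 2 ≤ (2 * (X : ℤ)) ^ 2 := by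
    rw [← sq_abs e]
    exact pow_le_pow_left₀ (abs_nonneg e) heX 2
  have hB1 : |3 * e ^ 2 - a| ≤ 13 * (X : ℤ) ^ 2 := by
    calc |3 * e ^ 2 - a| ≤ |3 * e ^ 2| + |a| := abs_sub _ _
      _ ≤ 3 * e ^ 2 + (X : ℤ) ^ 2 := by
          rw [abs_of_nonneg (by positivity : (0 : ℤ) ≤ 3 * e ^ 2)]
          linarith
      _ ≤ _ := by nlinarith
  have hXsq : (0 : ℤ) ≤ (X : ℤ) ^ 2 := by positivity
  have hGx : G * x ≤ 88 * X ^ 2 := by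
    have : ((G * x : ℕ) : ℤ) ≤ ((88 * X ^ 2 : ℕ) : ℤ) := by
      push_cast
      rw [← hxe]
      nlinarith
    exact_mod_cast this
  have hGy : G * y ≤ 88 * X ^ 2 := by
    have e1 : ((G : ℤ) * y) = 4 * |3 * e ^ 2 - a| := by
      have e2 : |4 * (3 * e ^ 2 - a)| = |sB * ((G : ℤ) * y)| := by rw [hye]
      rw [abs_mul, abs_mul] at e2
      have e3 : |sB| = 1 := by rcases hsB with h | h <;> rw [h] <;> norm_num
      have e4 : |((G : ℤ) * y)| = (G : ℤ) * y := abs_of_nonneg (by positivity)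
      rw [e3, e4, one_mul] at e2
      rw [← e2]
      norm_num
    have : ((G * y : ℕ) : ℤ) ≤ ((88 * X ^ 2 : ℕ) : ℤ) := by
      push_cast
      rw [e1]
      linarith
    exact_mod_cast this
  have hGz : G * z ≤ 88 * X ^ 2 := by
    have : ((G * z : ℕ) : ℤ) ≤ ((88 * X ^ 2 : ℕ) : ℤ) := by
      push_cast
      rw [← hze]
      calc |9 * e ^ 2 - 4 * (3 * e ^ 2 - a)| ≤ |9 * e ^ 2| + |4 * (3 * e ^ 2 - a)| := abs_sub _ _
        _ = 9 * e ^ 2 + 4 * |3 * e ^ 2 - a| := by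
            rw [abs_of_nonneg (by positivity : (0 : ℤ) ≤ 9 * e ^ 2), abs_mul]
            norm_num
        _ ≤ _ := by nlinarith
    exact_mod_cast this
  have hM : ∀ w : ℕ, G * w ≤ 88 * X ^ 2 → w ≤ 88 * X ^ 2 / (G1 * Gb ^ 2 * G3 ^ 3) := by
    intro w hw
    rw [Nat.le_div_iff_mul_le (by positivity)]
    calc w * (G1 * Gb ^ 2 * G3 ^ 3) ≤ w * G := Nat.mul_le_mul_left _ hGge
      _ = G * w := by ring
      _ ≤ _ := hw
  have hMd : ∀ w : ℕ, w ∣ G → w ≤ 88 * X ^ 2 := by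
    intro w hw
    calc w ≤ G := Nat.le_of_dvd hGpos hw
      _ = G * 1 := (mul_one G).symm
      _ ≤ G * x := Nat.mul_le_mul_left _ hx0
      _ ≤ _ := hGx
  have hMw : ∀ w : ℕ, G * w ≤ 88 * X ^ 2 → w ≤ 88 * X ^ 2 := by
    intro w hw
    calc w = 1 * w := (one_mul w).symm
      _ ≤ G * w := Nat.mul_le_mul_right _ hGpos
      _ ≤ _ := hw
  -- square
  have hsqr : ∃ s : ℕ, 0 < s ∧ x = sqf (c * G1 * G3) * s ^ 2 := by
    have e1 : G * x = (3 * e.natAbs) ^ 2 := by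
      have : ((G * x : ℕ) : ℤ) = (((3 * e.natAbs) ^ 2 : ℕ) : ℤ) := by
        push_cast
        rw [← hxe, mul_pow, sq_abs]
        ring
      exact_mod_cast this
    have e2 : (Ga * Gb * G3) ^ 2 ∣ (3 * e.natAbs) ^ 2 := by
      rw [← e1, hG]
      exact ⟨c * G1 * G3 * x, by ring⟩
    obtain ⟨m, hm⟩ := (Nat.pow_dvd_pow_iff (by norm_num)).mp e2
    refine sqf_sq (c * G1 * G3) x m (by positivity) hx0 ?_
    have e3 : (Ga * Gb * G3) ^ 2 * (x * (c * G1 * G3)) = (Ga * Gb * G3) ^ 2 * m ^ 2 := by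
      calc (Ga * Gb * G3) ^ 2 * (x * (c * G1 * G3)) = G * x := by rw [hG]; ring
        _ = (3 * e.natAbs) ^ 2 := e1
        _ = _ := by rw [hm]; ring
    exact Nat.eq_of_mul_eq_mul_left (by positivity) e3
  -- the radical
  have hradR : (rad y : ℝ) * rad z * Lam G1 Gb G3 ≤
      (6 ^ 21 * K / 16) ^ ((1 : ℝ) / 6) * ((y ^ 2 * z : ℕ) : ℝ) ^ ((1 : ℝ) / 6) := by
    have hD16 : 16 * |((D a b : ℤ) : ℝ)| =
        ((c : ℝ) * G1 * (Ga * Gb) ^ 2 * G3 ^ 3) ^ 3 * ((y : ℝ) ^ 2 * z) := by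
      have e1 : 16 * D a b = (4 * (3 * e ^ 2 - a)) ^ 2 * (9 * e ^ 2 - 4 * (3 * e ^ 2 - a)) := by
        unfold D
        have h1 : b = e ^ 3 - a * e := by linarith
        rw [h1]
        ring
      have e2 : 16 * |D a b| = (G : ℤ) ^ 3 * (y ^ 2 * z) := by
        have : |16 * D a b| = 16 * |D a b| := by rw [abs_mul]; norm_num
        rw [← this, e1, abs_mul, hze, abs_of_nonneg (sq_nonneg _), hye, mul_pow]
        have e3 : sB ^ 2 = 1 := by rcases hsB with h | h <;> rw [h] <;> norm_num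
        rw [e3]
        ring
      have e4 : ((16 * |D a b| : ℤ) : ℝ) = (((G : ℤ) ^ 3 * (y ^ 2 * z) : ℤ) : ℝ) := by rw [e2]
      rw [hG] at e4
      push_cast at e4
      exact e4
    have hcR : (rad (y * z) : ℝ) * ((Ga : ℝ) * ((G1 : ℝ) * G3 * Gb)) * ((G1 : ℝ) * G3 * Gb) ≤
        6 * (condS a b : ℝ) := by exact_mod_cast hcond
    have hc6R : (c : ℝ) ≤ 6 ^ 5 := by exact_mod_cast hc6
    have hGaR : (0 : ℝ) < Ga := by exact_mod_cast hGa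
    have hG1R : (0 : ℝ) < G1 := by exact_mod_cast hG1
    have hGbR : (0 : ℝ) < Gb := by exact_mod_cast hGb
    have hG3R : (0 : ℝ) < G3 := by exact_mod_cast hG3
    have hrr : (rad y : ℝ) * rad z = rad (y * z) := by
      rw [rad_mul hyz]; push_cast; ring
    have hmain := rad_ineq (rad (y * z)) Ga G1 Gb G3 c (condS a b) y z (|((D a b : ℤ) : ℝ)|) K
      (Nat.cast_nonneg _) hGaR hG1R hGbR hG3R (Nat.cast_nonneg _) hc6R (Nat.cast_nonneg _)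
      (Nat.cast_nonneg _) hK.le hcR hbig hD16
    have hL0 : 0 ≤ Lam G1 Gb G3 := by
      have := Lam_one G1 Gb G3 hG1 hGb hG3
      linarith
    have hL6 : Lam G1 Gb G3 ^ 6 = (G1 : ℝ) ^ 9 * (Gb : ℝ) ^ 6 * (G3 : ℝ) ^ 3 := by
      unfold Lam
      rw [mul_pow, mul_pow, ← Real.rpow_natCast ((G1 : ℝ) ^ ((3 : ℝ) / 2)) 6,
        ← Real.rpow_natCast ((G3 : ℝ) ^ ((1 : ℝ) / 2)) 6, ← Real.rpow_mul hG1R.le,
        ← Real.rpow_mul hG3R.le]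
      have f1 : (3 : ℝ) / 2 * ((6 : ℕ) : ℝ) = ((9 : ℕ) : ℝ) := by norm_num
      have f2 : (1 : ℝ) / 2 * ((6 : ℕ) : ℝ) = ((3 : ℕ) : ℝ) := by norm_num
      rw [f1, f2, Real.rpow_natCast, Real.rpow_natCast]
    rw [hrr]
    have hK0 : 0 ≤ 6 ^ 21 * K / 16 := by positivity
    rw [← Real.mul_rpow hK0 (Nat.cast_nonneg _)]
    have hlhs : ((rad (y * z) : ℝ) * Lam G1 Gb G3) ^ 6 ≤
        (6 ^ 21 * K / 16) * ((y ^ 2 * z : ℕ) : ℝ) := by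
      rw [mul_pow, hL6]
      push_cast
      exact hmain
    have hnn : 0 ≤ (rad (y * z) : ℝ) * Lam G1 Gb G3 := mul_nonneg (Nat.cast_nonneg _) hL0
    calc (rad (y * z) : ℝ) * Lam G1 Gb G3
        = (((rad (y * z) : ℝ) * Lam G1 Gb G3) ^ 6) ^ ((1 : ℝ) / 6) := by
          rw [← Real.rpow_natCast, ← Real.rpow_mul hnn]
          norm_num
      _ ≤ _ := Real.rpow_le_rpow (by positivity) hlhs (by norm_num)
  -- signs
  obtain ⟨sA, hsA, hsAe⟩ : ∃ sA : ℤ, (sA = 1 ∨ sA = -1) ∧ e = sA * |e| := by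
    rcases le_total 0 e with h0 | h0
    · exact ⟨1, Or.inl rfl, by rw [abs_of_nonneg h0]; ring⟩
    · exact ⟨-1, Or.inr rfl, by rw [abs_of_nonpos h0]; ring⟩
  refine ⟨sA, sB, Ga, ((c, (G1, (Gb, G3))), (x, (y, z))), hsA, hsB, hdvd, ?_, ?_⟩
  · unfold FF
    rw [mem_filter]
    refine ⟨?_, hx0, hy0, hz0, hyz, hrel, hM x hGx, hM y hGy, hM z hGz, hsqr, hradR⟩
    simp only [mem_product, mem_Icc]
    refine ⟨⟨⟨hc, hc6⟩, ⟨hG1, hMd G1 ?_⟩, ⟨hGb, hMd Gb ?_⟩, ⟨hG3, hMd G3 ?_⟩⟩, ⟨hx0, hMw x hGx⟩,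
      ⟨hy0, hMw y hGy⟩, ⟨hz0, hMw z hGz⟩⟩
    · rw [hG]; exact ⟨c * (Ga * Gb) ^ 2 * G3 ^ 3, by ring⟩
    · rw [hG]; exact ⟨c * G1 * Ga ^ 2 * Gb * G3 ^ 3, by ring⟩
    · rw [hG]; exact ⟨c * G1 * (Ga * Gb) ^ 2 * G3 ^ 2, by ring⟩
  · unfold mdl2
    simp only
    have e1 : G * x = (3 * e.natAbs) ^ 2 := by
      have : ((G * x : ℕ) : ℤ) = (((3 * e.natAbs) ^ 2 : ℕ) : ℤ) := by
        push_cast
        rw [← hxe, mul_pow, sq_abs]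
        ring
      exact_mod_cast this
    rw [← hG, e1, Nat.sqrt_eq']
    have e2 : sA * (((3 * e.natAbs : ℕ)) : ℤ) / 3 = e := by
      have : sA * (((3 * e.natAbs : ℕ)) : ℤ) = e * 3 := by
        push_cast
        rw [show sA * (3 * |e|) = (sA * |e|) * 3 by ring, ← hsAe]
      rw [this]
      exact Int.mul_ediv_cancel _ (by norm_num)
    rw [e2]
    have e3 : sB * ((G : ℤ) * (y : ℤ)) / 4 = 3 * e ^ 2 - a := by
      rw [← hye]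
      exact Int.mul_ediv_cancel_left _ (by norm_num)
    rw [e3]
    have e4 : 3 * e ^ 2 - (3 * e ^ 2 - a) = a := by ring
    rw [e4]
    refine Prod.ext rfl ?_
    simp only
    linarith

end Pool.Agent.H925R.Two
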