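import Pool.Agent.H925R.Szpiro.Twist

/-!
# Arithmetic of minimal models with a rational 2-torsion point
-/

set_option autoImplicit false
set_option linter.unusedVariables false

namespace Pool.Agent.H925R.Two

open Finset
open Pool.Agent.H328R2.ABC
open Pool.Agent.H925R.Szpiro (D IsMin condS)

theorem small_prime (p : ℕ) (hp : p.Prime) (h5 : ¬ 5 ≤ p) : p ∈ ({2, 3} : Finset ℕ) := by
  have := hp.two_le
  have h4 : p ≠ 4 := by rintro rfl; norm_num at hp
  simp only [mem_insert, mem_singleton]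
  omega

/-- lower bound for the conductor -/
theorem cond_lower (a b : ℤ) (hD : D a b ≠ 0) (P : Finset ℕ) (n : ℕ) (hn0 : n ≠ 0)
    (hP : ∀ p ∈ P, p.Prime ∧ 5 ≤ p ∧ (p : ℤ) ∣ a ∧ (p : ℤ) ∣ D a b)
    (hn : ∀ p : ℕ, p.Prime → 5 ≤ p → p ∣ n → (p : ℤ) ∣ D a b) :
    rad n * (∏ p ∈ P, p) * (∏ p ∈ P.filter (fun p => ¬ p ∣ n), p) ≤ 6 * condS a b := by
  classical
  set N5 := n.primeFactors.filter (fun p => 5 ≤ p) with hN5
  have hD0 : (D a b).natAbs ≠ 0 := Int.natAbs_ne_zero.mpr hD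
  set S := P ∪ N5 with hS
  have hSsub : S ⊆ (D a b).natAbs.primeFactors.filter (fun p => 5 ≤ p) := by
    intro p hp
    rw [hS, mem_union, hN5, mem_filter] at hp
    rw [mem_filter]
    rcases hp with h | ⟨h1, h2⟩
    · obtain ⟨q1, q2, q3, q4⟩ := hP p h
      exact ⟨Nat.mem_primeFactors.mpr ⟨q1, Int.natCast_dvd.mp q4, hD0⟩, q2⟩
    · have hpp := Nat.prime_of_mem_primeFactors h1
      exact ⟨Nat.mem_primeFactors.mpr ⟨hpp,
        Int.natCast_dvd.mp (hn p hpp h2 (Nat.dvd_of_mem_primeFactors h1)), hD0⟩, h2⟩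
  have hw1 : ∀ p ∈ (D a b).natAbs.primeFactors.filter (fun p => 5 ≤ p),
      1 ≤ (if (p : ℤ) ∣ a then p ^ 2 else p) := by
    intro p hp
    have h5 := (mem_filter.mp hp).2
    split_ifs
    · exact Nat.one_le_pow _ _ (by omega)
    · omega
  have hc1 : ∏ p ∈ S, (if (p : ℤ) ∣ a then p ^ 2 else p) ≤ condS a b :=
    prod_le_prod_of_subset_of_one_le' hSsub (fun p hp _ => hw1 p hp)
  have hc2 : ∏ p ∈ S, (p * (if p ∈ P then p else 1)) ≤
      ∏ p ∈ S, (if (p : ℤ) ∣ a then p ^ 2 else p) := by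
    refine prod_le_prod' (fun p hp => ?_)
    have h5 : 5 ≤ p := (mem_filter.mp (hSsub hp)).2
    by_cases h : p ∈ P
    · rw [if_pos h, if_pos (hP p h).2.2.1, sq]
    · rw [if_neg h, mul_one]
      split_ifs
      · exact Nat.le_self_pow (by norm_num) p
      · exact le_refl _
  have hc3 : ∏ p ∈ S, (p * (if p ∈ P then p else 1)) =
      (∏ p ∈ N5, p) * (∏ p ∈ P.filter (fun p => ¬ p ∣ n), p) * (∏ p ∈ P, p) := by
    rw [prod_mul_distrib]
    congr 1
    · have hU : S = N5 ∪ P.filter (fun p => ¬ p ∣ n) := by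
        ext p
        simp only [hS, hN5, mem_union, mem_filter]
        constructor
        · rintro (h | h)
          · by_cases hpn : p ∣ n
            · left
              exact ⟨Nat.mem_primeFactors.mpr ⟨(hP p h).1, hpn, hn0⟩, (hP p h).2.1⟩
            · exact Or.inr ⟨h, hpn⟩
          · exact Or.inl h
        · rintro (h | h)
          · exact Or.inr h
          · exact Or.inl h.1
      have hdis : Disjoint N5 (P.filter (fun p => ¬ p ∣ n)) := by
        rw [Finset.disjoint_left]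
        intro p h1 h2
        exact (mem_filter.mp h2).2 (Nat.dvd_of_mem_primeFactors (mem_filter.mp h1).1)
      rw [hU, prod_union hdis]
    · rw [← prod_filter]
      congr 1
      ext p
      simp only [hS, mem_union, mem_filter]
      tauto
  have hr : rad n ≤ 6 * ∏ p ∈ N5, p := by
    unfold rad
    rw [← prod_filter_mul_prod_filter_not n.primeFactors (fun p => 5 ≤ p), mul_comm]
    refine Nat.mul_le_mul_right _ ?_
    have : ∏ p ∈ n.primeFactors.filter (fun p => ¬ 5 ≤ p), p ≤ ∏ p ∈ ({2, 3} : Finset ℕ), p := by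
      refine prod_le_prod_of_subset_of_one_le' ?_ ?_
      · intro p hp
        rw [mem_filter] at hp
        exact small_prime p (Nat.prime_of_mem_primeFactors hp.1) hp.2
      · intro p hp _
        simp only [mem_insert, mem_singleton] at hp
        omega
    rw [prod_pair (by norm_num)] at this
    omega
  calc rad n * (∏ p ∈ P, p) * (∏ p ∈ P.filter (fun p => ¬ p ∣ n), p)
      ≤ (6 * ∏ p ∈ N5, p) * (∏ p ∈ P, p) * (∏ p ∈ P.filter (fun p => ¬ p ∣ n), p) := by gcongr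
    _ = 6 * ((∏ p ∈ N5, p) * (∏ p ∈ P.filter (fun p => ¬ p ∣ n), p) * (∏ p ∈ P, p)) := by ring
    _ = 6 * ∏ p ∈ S, (p * (if p ∈ P then p else 1)) := by rw [hc3]
    _ ≤ 6 * condS a b := Nat.mul_le_mul_left _ (hc2.trans hc1)

/-- in a minimal model with root `e`: `m² ∣ e` and `m⁴ ∣ 3e² - a` is impossible for `m ≥ 2` -/
theorem min_no_pow (a b e : ℤ) (hmin : IsMin a b) (he : e ^ 3 = a * e + b) (m : ℕ) (hm : 2 ≤ m)
    (h1 : (m : ℤ) ^ 2 ∣ e) (h2 : (m : ℤ) ^ 4 ∣ 3 * e ^ 2 - a) : False := by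
  obtain ⟨k, hk⟩ := h1
  obtain ⟨l, hl⟩ := h2
  have ha' : a = (m : ℤ) ^ 4 * (3 * k ^ 2 - l) := by
    have : a = 3 * e ^ 2 - (m : ℤ) ^ 4 * l := by linarith
    rw [this, hk]; ring
  have hb' : b = (m : ℤ) ^ 6 * (k ^ 3 - (3 * k ^ 2 - l) * k) := by
    have : b = e ^ 3 - a * e := by linarith
    rw [this, ha', hk]; ring
  have hm0 : (m : ℚ) ≠ 0 := by exact_mod_cast (by omega : m ≠ 0)
  have := hmin.2 ((m : ℚ)⁻¹) (3 * k ^ 2 - l) (k ^ 3 - (3 * k ^ 2 - l) * k) (inv_ne_zero hm0)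
    (by rw [ha']; push_cast; field_simp) (by rw [hb']; push_cast; field_simp)
  have hD : D a b = (m : ℤ) ^ 12 * D (3 * k ^ 2 - l) (k ^ 3 - (3 * k ^ 2 - l) * k) := by
    unfold D
    rw [hb', ha']
    ring
  set D' := D (3 * k ^ 2 - l) (k ^ 3 - (3 * k ^ 2 - l) * k) with hD'
  have hD0 : D' ≠ 0 := by
    intro h
    apply hmin.1
    rw [hD, h, mul_zero]
  have hpos : 0 < |D'| := abs_pos.mpr hD0
  rw [hD, abs_mul, abs_of_nonneg (by positivity : (0 : ℤ) ≤ (m : ℤ) ^ 12)] at this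
  have hm12 : (2 : ℤ) ≤ (m : ℤ) ^ 12 := by
    have h2m : (2 : ℤ) ≤ m := by exact_mod_cast hm
    calc (2 : ℤ) ≤ m := h2m
      _ = (m : ℤ) ^ 1 := (pow_one _).symm
      _ ≤ (m : ℤ) ^ 12 := pow_le_pow_right₀ (by linarith) (by norm_num)
  nlinarith

/-- if `p ^ (2k-1) ∣ n²` then `p ^ k ∣ n` -/
theorem pow_dvd_of_sq {p k n : ℕ} (hp : p.Prime) (hn : n ≠ 0) (hk : 1 ≤ k)
    (h : p ^ (2 * k - 1) ∣ n ^ 2) : p ^ k ∣ n := by
  rw [hp.pow_dvd_iff_le_factorization hn]
  rw [hp.pow_dvd_iff_le_factorization (pow_ne_zero _ hn), Nat.factorization_pow] at h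
  simp only [Finsupp.smul_apply, smul_eq_mul] at h
  omega

/-- decomposition of `G` whose exponents at the primes `≥ 5` are at most `3` and at `2`, `3` at
most `5` -/
theorem decomp (G : ℕ) (hG : 0 < G) (h5 : ∀ p : ℕ, p.Prime → 5 ≤ p → ¬ p ^ 4 ∣ G)
    (h2 : ¬ 2 ^ 6 ∣ G) (h3 : ¬ 3 ^ 6 ∣ G) (n : ℕ)
    (hodd : ∀ p : ℕ, p.Prime → 5 ≤ p → p ∣ G → p ∣ n → G.factorization p = 2) :
    ∃ c G1 Ga Gb G3 : ℕ, 0 < c ∧ c ≤ 6 ^ 5 ∧ 0 < G1 ∧ 0 < Ga ∧ 0 < Gb ∧ 0 < G3 ∧
      G = c * G1 * (Ga * Gb) ^ 2 * G3 ^ 3 ∧ Ga ∣ n ∧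
      (∏ p ∈ G.primeFactors.filter (fun p => 5 ≤ p), p) = Ga * (G1 * G3 * Gb) ∧
      (∏ p ∈ (G.primeFactors.filter (fun p => 5 ≤ p)).filter (fun p => ¬ p ∣ n), p) =
        G1 * G3 * Gb := by
  classical
  set P := G.primeFactors.filter (fun p => 5 ≤ p) with hP
  set v := G.factorization with hv
  have hpr : ∀ p ∈ P, p.Prime := fun p hp =>
    Nat.prime_of_mem_primeFactors (mem_filter.mp hp).1
  have hdv : ∀ p ∈ P, p ∣ G := fun p hp => Nat.dvd_of_mem_primeFactors (mem_filter.mp hp).1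
  have hge : ∀ p ∈ P, 5 ≤ p := fun p hp => (mem_filter.mp hp).2
  have hv1 : ∀ p ∈ P, 1 ≤ v p := fun p hp =>
    ((hpr p hp).dvd_iff_one_le_factorization hG.ne').mp (hdv p hp)
  have hv3 : ∀ p ∈ P, v p ≤ 3 := by
    intro p hp
    by_contra hcon
    push Not at hcon
    exact h5 p (hpr p hp) (hge p hp)
      (((hpr p hp).pow_dvd_iff_le_factorization hG.ne').mpr hcon)
  set G1 := ∏ p ∈ P, (if v p = 1 then p else 1) with hG1
  set G3 := ∏ p ∈ P, (if v p = 3 then p else 1) with hG3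
  set Ga := ∏ p ∈ P, (if v p = 2 ∧ p ∣ n then p else 1) with hGa
  set Gb := ∏ p ∈ P, (if v p = 2 ∧ ¬ p ∣ n then p else 1) with hGb
  set c := ∏ p ∈ ({2, 3} : Finset ℕ), p ^ v p with hc
  have hitepos : ∀ (Q : ℕ → Prop) [DecidablePred Q], 0 < ∏ p ∈ P, (if Q p then p else 1) := by
    intro Q _
    refine prod_pos (fun p hp => ?_)
    split_ifs
    · have := hge p hp; omega
    · norm_num
  have hcle : c ≤ 6 ^ 5 := by
    have e2 : v 2 ≤ 5 := by
      by_contra hcon
      push Not at hcon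
      exact h2 ((Nat.prime_two.pow_dvd_iff_le_factorization hG.ne').mpr hcon)
    have e3 : v 3 ≤ 5 := by
      by_contra hcon
      push Not at hcon
      exact h3 ((Nat.prime_three.pow_dvd_iff_le_factorization hG.ne').mpr hcon)
    rw [hc, prod_pair (by norm_num)]
    calc 2 ^ v 2 * 3 ^ v 3 ≤ 2 ^ 5 * 3 ^ 5 :=
          Nat.mul_le_mul (Nat.pow_le_pow_right (by norm_num) e2)
            (Nat.pow_le_pow_right (by norm_num) e3)
      _ = 6 ^ 5 := by norm_num
  have hcpos : 0 < c := by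
    rw [hc, prod_pair (by norm_num)]
    positivity
  have hfac : G = c * ∏ p ∈ P, p ^ v p := by
    have h1 : ∏ p ∈ G.primeFactors, p ^ v p = G :=
      Nat.prod_factorization_pow_eq_self hG.ne'
    rw [← prod_filter_mul_prod_filter_not G.primeFactors (fun p => 5 ≤ p)] at h1
    have h3 : ∏ p ∈ G.primeFactors.filter (fun p => ¬ 5 ≤ p), p ^ v p = c := by
      rw [hc]
      refine prod_subset ?_ ?_
      · intro p hp
        rw [mem_filter] at hp
        exact small_prime p (Nat.prime_of_mem_primeFactors hp.1) hp.2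
      · intro p hp hnot
        have h5 : ¬ 5 ≤ p := by
          simp only [mem_insert, mem_singleton] at hp
          omega
        rw [mem_filter, not_and'] at hnot
        have := hnot h5
        rw [← Nat.support_factorization, Finsupp.notMem_support_iff] at this
        rw [hv, this, pow_zero]
    rw [h3, mul_comm] at h1
    exact h1.symm
  refine ⟨c, G1, Ga, Gb, G3, hcpos, hcle, hitepos _, hitepos _, hitepos _, hitepos _, ?_, ?_, ?_, ?_⟩
  · rw [hfac, mul_assoc, mul_assoc]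
    congr 1
    rw [hG1, hG3, hGa, hGb, ← prod_mul_distrib, ← prod_pow, ← prod_pow, ← prod_mul_distrib,
      ← prod_mul_distrib]
    refine prod_congr rfl (fun p hp => ?_)
    have a1 := hv1 p hp
    have a3 := hv3 p hp
    have : v p = 1 ∨ v p = 2 ∨ v p = 3 := by omega
    rcases this with h | h | h
    · simp [h]
    · by_cases hpn : p ∣ n
      · simp [h, hpn]
      · simp [h, hpn]
    · simp [h]
  · rw [hGa, ← prod_filter]
    refine Finset.prod_primes_dvd n ?_ ?_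
    · intro p hp
      rw [mem_filter] at hp
      exact (hpr p hp.1).prime
    · intro p hp
      exact (mem_filter.mp hp).2.2
  · rw [hG1, hG3, hGa, hGb, ← prod_mul_distrib, ← prod_mul_distrib, ← prod_mul_distrib]
    refine prod_congr rfl (fun p hp => ?_)
    have a1 := hv1 p hp
    have a3 := hv3 p hp
    have : v p = 1 ∨ v p = 2 ∨ v p = 3 := by omega
    rcases this with h | h | h
    · simp [h]
    · by_cases hpn : p ∣ n
      · simp [h, hpn]
      · simp [h, hpn]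
    · simp [h]
  · rw [prod_filter, hG1, hG3, hGb, ← prod_mul_distrib, ← prod_mul_distrib]
    refine prod_congr rfl (fun p hp => ?_)
    have a1 := hv1 p hp
    have a3 := hv3 p hp
    have : v p = 1 ∨ v p = 2 ∨ v p = 3 := by omega
    by_cases hpn : p ∣ n
    · have h2 : v p = 2 := hodd p (hpr p hp) (hge p hp) (hdv p hp) hpn
      simp [h2, hpn]
    · rcases this with h | h | h
      · simp [h, hpn]
      · simp [h, hpn]
      · simp [h, hpn]

end Pool.Agent.H925R.Two
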