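import Pool.Agent.H328R2.ABC.DetDvd
import Pool.Agent.H328R2.ABC.OneClass

/-! Integral points on `U x² = A z³ + B` with `x ≥ 1`, `1 ≤ z ≤ Z`: at most `C X^ε Z^(1/2)`. -/

set_option linter.unusedVariables false

namespace Pool.Agent.H925R.Two

open Finset Polynomial
open Pool.Agent.H328R2.ABC (OneClass_rel OneClass_det_le det_dvd)

private theorem natDeg_sq_mul (P g : ℚ[X]) (hP : P ≠ 0) (hg0 : g ≠ 0) :
    (P ^ 2 * g).natDegree = 2 * P.natDegree + g.natDegree := by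
  rw [natDegree_mul (pow_ne_zero _ hP) hg0, natDegree_pow]

theorem few_points23 (m : ℕ) (U A B : ℤ) (hU : U ≠ 0) (hA : A ≠ 0)
    (c : Fin (m + 1) → Fin 2 → ℚ) (hc : c ≠ 0) (S : Finset (ℤ × ℤ))
    (hS : ∀ p ∈ S, 0 ≤ p.1 ∧ U * p.1 ^ 2 = A * p.2 ^ 3 + B ∧
      ∑ α : Fin (m + 1), ∑ β : Fin 2,
        c α β * (p.2 : ℚ) ^ (α : ℕ) * (p.1 : ℚ) ^ (β : ℕ) = 0) :
    S.card ≤ 2 * m + 3 := by
  classical
  have hUq : (U : ℚ) ≠ 0 := by exact_mod_cast hU
  have hAq : (A : ℚ) ≠ 0 := by exact_mod_cast hA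
  set P : Fin 2 → ℚ[X] := fun β => ∑ α : Fin (m + 1), C (c α β) * X ^ (α : ℕ) with hP
  have hPdeg : ∀ β, (P β).natDegree ≤ m := by
    intro β
    apply natDegree_sum_le_of_forall_le
    intro α _
    refine le_trans (natDegree_C_mul_X_pow_le _ _) ?_
    have := α.2
    omega
  have hPcoeff : ∀ β (α : Fin (m + 1)), (P β).coeff (α : ℕ) = c α β := by
    intro β α
    simp only [hP, finsetSum_coeff, coeff_C_mul, coeff_X_pow]
    rw [Finset.sum_eq_single α]
    · simp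
    · intro b _ hb
      have : (α : ℕ) ≠ (b : ℕ) := fun h => hb (Fin.ext h.symm)
      simp [this]
    · intro h
      exact absurd (Finset.mem_univ _) h
  set g : ℚ[X] := C ((A : ℚ) / U) * X ^ 3 + C ((B : ℚ) / U) with hgdef
  have hg : g.natDegree = 3 := by
    rw [hgdef, natDegree_add_C, natDegree_C_mul_X_pow]
    exact div_ne_zero hAq hUq
  have hg0 : g ≠ 0 := by
    intro h
    rw [h] at hg
    simp at hg
  have hne : ¬ (P 0 = 0 ∧ P 1 = 0) := by
    rintro ⟨a0, a1⟩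
    apply hc
    funext α β
    rw [← hPcoeff β α]
    fin_cases β <;> simp [a0, a1]
  set nr : ℚ[X] := P 0 ^ 2 - P 1 ^ 2 * g with hnr
  have hN : nr ≠ 0 := by
    intro h
    have h1 : P 0 ^ 2 = P 1 ^ 2 * g := sub_eq_zero.mp h
    by_cases h0 : P 1 = 0
    · rw [h0] at h1
      have : P 0 = 0 := by
        have h2 : P 0 ^ 2 = 0 := by rw [h1]; ring
        exact pow_eq_zero_iff (by norm_num) |>.mp h2
      exact hne ⟨this, h0⟩
    · have h2 := congrArg natDegree h1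
      rw [natDeg_sq_mul _ _ h0 hg0, natDegree_pow, hg] at h2
      omega
  have hNd : nr.natDegree ≤ 2 * m + 3 := by
    rw [hnr]
    refine (natDegree_sub_le _ _).trans (max_le ?_ ?_)
    · rw [natDegree_pow]
      have := hPdeg 0
      omega
    · refine natDegree_mul_le.trans ?_
      rw [natDegree_pow, hg]
      have := hPdeg 1
      omega
  -- the second coordinates are roots
  have hroot : ∀ p ∈ S, ((p.2 : ℚ)) ∈ nr.roots.toFinset := by
    intro p hp
    obtain ⟨_, e1, e2⟩ := hS p hp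
    rw [Multiset.mem_toFinset, mem_roots hN, IsRoot.def]
    have hgz : g.eval (p.2 : ℚ) = (p.1 : ℚ) ^ 2 := by
      have e1q : (U : ℚ) * (p.1 : ℚ) ^ 2 = A * (p.2 : ℚ) ^ 3 + B := by exact_mod_cast e1
      rw [hgdef]
      simp only [eval_add, eval_mul, eval_C, eval_pow, eval_X]
      field_simp
      linarith
    have hlin : (P 0).eval (p.2 : ℚ) + (P 1).eval (p.2 : ℚ) * p.1 = 0 := by
      rw [← e2, Finset.sum_comm, Fin.sum_univ_two]
      simp only [hP, eval_finsetSum, eval_mul, eval_C, eval_pow, eval_X]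
      congr 1
      · apply Finset.sum_congr rfl
        intro α _
        simp
      · rw [Finset.sum_mul]
        apply Finset.sum_congr rfl
        intro α _
        simp
    rw [hnr]
    simp only [eval_sub, eval_mul, eval_pow, hgz]
    set p0 := (P 0).eval (p.2 : ℚ)
    set p1 := (P 1).eval (p.2 : ℚ)
    have hfac : p0 ^ 2 - p1 ^ 2 * (p.1 : ℚ) ^ 2 = (p0 + p1 * p.1) * (p0 - p1 * p.1) := by ring
    rw [hfac, hlin, zero_mul]
  have hinj : Set.InjOn (fun p : ℤ × ℤ => ((p.2 : ℚ))) (S : Set (ℤ × ℤ)) := by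
    intro p hp q hq hpq
    have h2 : p.2 = q.2 := by
      have : ((p.2 : ℚ)) = ((q.2 : ℚ)) := hpq
      exact_mod_cast this
    have e0 := (hS p hp).1
    have f0 := (hS q hq).1
    have e1 := (hS p hp).2.1
    have e2 := (hS q hq).2.1
    rw [h2] at e1
    have h3 : U * p.1 ^ 2 = U * q.1 ^ 2 := by rw [e1, e2]
    have h4 : p.1 ^ 2 = q.1 ^ 2 := mul_left_cancel₀ hU h3
    have h5 : p.1 = q.1 := by
      have := (sq_eq_sq₀ e0 f0).mp h4
      exact this
    exact Prod.ext h5 h2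
  calc S.card = (S.image (fun p : ℤ × ℤ => ((p.2 : ℚ)))).card :=
        (Finset.card_image_of_injOn hinj).symm
    _ ≤ nr.roots.toFinset.card := by
        apply Finset.card_le_card
        intro z hz
        obtain ⟨p, hp, rfl⟩ := Finset.mem_image.mp hz
        exact hroot p hp
    _ ≤ Multiset.card nr.roots := Multiset.toFinset_card_le _
    _ ≤ nr.natDegree := card_roots' _
    _ ≤ 2 * m + 3 := hNd

theorem hensel23 (p : ℕ) (hp : p.Prime) (U A B z0 x0 : ℤ) (h : ¬ (p : ℤ) ∣ 2 * U * x0) (N : ℕ) :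
    ∃ Φ : Polynomial ℤ, ∀ z x : ℤ, (p : ℤ) ∣ z - z0 → (p : ℤ) ∣ x - x0 →
      U * x ^ 2 = A * z ^ 3 + B → (p : ℤ) ^ N ∣ x - Φ.eval z := by
  have hpp : Prime (p : ℤ) := Nat.prime_iff_prime_int.1 hp
  obtain ⟨a, w, hw⟩ := (hpp.coprime_iff_not_dvd.2 h)
  have hw' : (p : ℤ) ∣ 1 - 2 * U * x0 * w := ⟨a, by linarith⟩
  -- induction from `N = 1`
  have key : ∀ n : ℕ, ∃ Φ : Polynomial ℤ, ∀ z x : ℤ, (p : ℤ) ∣ z - z0 → (p : ℤ) ∣ x - x0 →
      U * x ^ 2 = A * z ^ 3 + B → (p : ℤ) ^ (n + 1) ∣ x - Φ.eval z := by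
    intro n
    induction n with
    | zero =>
      refine ⟨C x0, ?_⟩
      intro z x _ hx _
      simpa using hx
    | succ n ih =>
      obtain ⟨Φ, hΦ⟩ := ih
      refine ⟨Φ - C w * (C U * Φ ^ 2 - (C A * X ^ 3 + C B)), ?_⟩
      intro z x hz hx hc
      have h1 := hΦ z x hz hx hc
      simp only [eval_sub, eval_mul, eval_C, eval_pow, eval_add, eval_X]
      set f := Φ.eval z with hf
      obtain ⟨k, hk⟩ := h1
      have hid : x - (f - w * (U * f ^ 2 - (A * z ^ 3 + B))) =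
          (x - f) * (1 - 2 * U * x0 * w) + (x - f) * (x - x0) * (-2 * w * U) +
            (x - f) ^ 2 * (w * U) := by
        rw [← hc]; ring
      rw [hid]
      obtain ⟨q1, hq1⟩ := hw'
      obtain ⟨q2, hq2⟩ := hx
      have hd1 : (p : ℤ) ^ (n + 1 + 1) ∣ (x - f) * (1 - 2 * U * x0 * w) := by
        rw [hk, hq1]
        exact ⟨k * q1, by ring⟩
      have hd2 : (p : ℤ) ^ (n + 1 + 1) ∣ (x - f) * (x - x0) * (-2 * w * U) := by
        rw [hk, hq2]
        exact ⟨k * q2 * (-2 * w * U), by ring⟩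
      have hd3 : (p : ℤ) ^ (n + 1 + 1) ∣ (x - f) ^ 2 * (w * U) := by
        apply Dvd.dvd.mul_right
        rw [hk]
        exact ⟨(p : ℤ) ^ n * k ^ 2, by ring⟩
      exact dvd_add (dvd_add hd1 hd2) hd3
  cases N with
  | zero => exact ⟨0, fun z x _ _ _ => by simp⟩
  | succ n => exact key n

/-- the points of the curve `U x² = A z³ + B` in one residue class modulo `p`. -/
theorem one_class23 (m : ℕ) (p : ℕ) (hp : p.Prime) (U A B z0 x0 : ℤ) (hU : U ≠ 0) (hA : A ≠ 0)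
    (h : ¬ (p : ℤ) ∣ 2 * U * x0) (X Z : ℝ) (hX : 1 ≤ X) (hZ : 1 ≤ Z)
    (hbig : ((2 * (m + 1)).factorial : ℝ) * Z ^ (m * (m + 1)) * X ^ (m + 1)
      < (p : ℝ) ^ (2 * (m + 1) * (2 * (m + 1) - 1) / 2))
    (S : Finset (ℤ × ℤ))
    (hS : ∀ q ∈ S, 0 ≤ q.1 ∧ U * q.1 ^ 2 = A * q.2 ^ 3 + B ∧ (p : ℤ) ∣ q.1 - x0 ∧
      (p : ℤ) ∣ q.2 - z0 ∧ |(q.1 : ℝ)| ≤ X ∧ |(q.2 : ℝ)| ≤ Z) :
    S.card ≤ 2 * m + 3 := by
  classical
  obtain ⟨D, hD⟩ : ∃ D, D = 2 * (m + 1) := ⟨_, rfl⟩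
  rw [← hD] at hbig
  set e : Fin (m + 1) × Fin 2 ≃ Fin D :=
    finProdFinEquiv.trans (finCongr (by omega)) with he
  set a : Fin D → ℕ := fun k => ((e.symm k).1 : ℕ) with ha
  set b : Fin D → ℕ := fun k => ((e.symm k).2 : ℕ) with hb
  have hsa : ∑ k, a k = m * (m + 1) := by
    rw [← e.sum_comp]
    simp only [ha, Equiv.symm_apply_apply]
    rw [Fintype.sum_prod_type]
    simp only [Finset.sum_const, Finset.card_univ, Fintype.card_fin, smul_eq_mul]
    rw [← Finset.mul_sum, Fin.sum_univ_eq_sum_range (fun i => i) (m + 1), mul_comm 2,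
      Finset.sum_range_id_mul_two]
    simp [mul_comm]
  have hsb : ∑ k, b k = m + 1 := by
    rw [← e.sum_comp]
    simp only [hb, Equiv.symm_apply_apply]
    rw [Fintype.sum_prod_type]
    simp only [Fin.sum_univ_two, Finset.sum_const, Finset.card_univ, Fintype.card_fin,
      smul_eq_mul]
    simp
  obtain ⟨N, hN⟩ : ∃ N, N = D * (D - 1) / 2 := ⟨_, rfl⟩
  obtain ⟨Φ, hΦ⟩ := hensel23 p hp U A B z0 x0 h N
  -- all minors vanish
  have hminor : ∀ s : Fin D → {q : ℤ × ℤ // q ∈ S},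
      (Matrix.of fun l k : Fin D => (s l).1.2 ^ a k * (s l).1.1 ^ b k).det = 0 := by
    intro s
    have hdvd : ((p : ℤ) ^ N) ∣
        (Matrix.of fun l k : Fin D => (s l).1.2 ^ a k * (s l).1.1 ^ b k).det := by
      have h1 := det_dvd D (p : ℤ) (fun l => (s l).1.2) z0
        (fun l => (hS _ (s l).2).2.2.2.1) (fun k => Polynomial.X ^ a k * Φ ^ b k)
      rw [← hN] at h1
      have h2 : ((p : ℤ) ^ N) ∣
          (Matrix.of fun l k : Fin D => (s l).1.2 ^ a k * (s l).1.1 ^ b k).det -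
          (Matrix.of fun l k : Fin D =>
            (Polynomial.X ^ a k * Φ ^ b k : Polynomial ℤ).eval ((s l).1.2)).det := by
        have hcast : ((p : ℤ) ^ N) = ((p ^ N : ℕ) : ℤ) := by push_cast; rfl
        rw [hcast, ← ZMod.intCast_zmod_eq_zero_iff_dvd, Int.cast_sub]
        have e1 : ∀ M : Matrix (Fin D) (Fin D) ℤ, ((M.det : ℤ) : ZMod (p ^ N)) =
            (M.map (Int.castRingHom (ZMod (p ^ N)))).det := fun M =>
          RingHom.map_det (Int.castRingHom (ZMod (p ^ N))) M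
        rw [e1, e1, sub_eq_zero]
        congr 1
        ext l k
        simp only [Matrix.map_apply, Matrix.of_apply, Polynomial.eval_mul, Polynomial.eval_pow,
          Polynomial.eval_X, map_mul, map_pow]
        congr 2
        have h3 := hΦ (s l).1.2 (s l).1.1 (hS _ (s l).2).2.2.2.1 (hS _ (s l).2).2.2.1
          (hS _ (s l).2).2.1
        rw [hcast, ← ZMod.intCast_zmod_eq_zero_iff_dvd, Int.cast_sub, sub_eq_zero] at h3
        exact h3
      exact (Int.dvd_add_right (dvd_neg.mpr h2)).mp (by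
        rw [neg_sub, sub_add_cancel]
        exact h1)
    by_contra hne
    have h3 : ((p : ℤ) ^ N) ≤
        |(Matrix.of fun l k : Fin D => (s l).1.2 ^ a k * (s l).1.1 ^ b k).det| :=
      Int.le_of_dvd (abs_pos.mpr hne) ((dvd_abs _ _).mpr hdvd)
    have h4 := OneClass_det_le D a b (fun l => (s l).1.2) (fun l => (s l).1.1) Z X hZ hX
      (fun l => (hS _ (s l).2).2.2.2.2.2) (fun l => (hS _ (s l).2).2.2.2.2.1)
    rw [hsa, hsb] at h4
    have h5 : ((p : ℝ) ^ N) ≤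
        |(((Matrix.of fun l k : Fin D => (s l).1.2 ^ a k * (s l).1.1 ^ b k).det : ℤ) : ℝ)| := by
      rw [← Int.cast_abs]
      exact_mod_cast h3
    rw [← hN] at hbig
    linarith
  -- the relation
  obtain ⟨c, hc0, hc⟩ := OneClass_rel D
    (fun (q : {q : ℤ × ℤ // q ∈ S}) k => ((q.1.2 : ℚ) ^ a k * (q.1.1 : ℚ) ^ b k)) (by
      intro s
      have h1 := hminor s
      have h2 := RingHom.map_det (Int.castRingHom ℚ)
        (Matrix.of fun l k : Fin D => (s l).1.2 ^ a k * (s l).1.1 ^ b k)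
      rw [h1, map_zero] at h2
      rw [h2]
      congr 1
      ext l k
      simp)
  refine few_points23 m U A B hU hA (fun α β => c (e (α, β))) ?_ S ?_
  · intro h0
    apply hc0
    funext k
    have := congrFun (congrFun h0 (e.symm k).1) (e.symm k).2
    simpa using this
  · intro q hq
    refine ⟨(hS q hq).1, (hS q hq).2.1, ?_⟩
    have h1 := hc ⟨q, hq⟩
    rw [← e.sum_comp] at h1
    simp only [ha, hb, Equiv.symm_apply_apply] at h1
    rw [Fintype.sum_prod_type] at h1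
    rw [← h1]
    refine Finset.sum_congr rfl fun α _ => Finset.sum_congr rfl fun β _ => ?_
    ring

/-- number of points of the curve over `ZMod p` -/
theorem curve23_mod_p (p : ℕ) (hp : p.Prime) (U A B : ℤ) (hU : ¬ (p : ℤ) ∣ U)
    (T : Finset (ZMod p × ZMod p))
    (hT : ∀ t ∈ T, (U : ZMod p) * t.1 ^ 2 = (A : ZMod p) * t.2 ^ 3 + (B : ZMod p)) :
    T.card ≤ 2 * p := by
  classical
  haveI : Fact p.Prime := ⟨hp⟩
  have hU' : (U : ZMod p) ≠ 0 := by
    rw [Ne, ZMod.intCast_zmod_eq_zero_iff_dvd]; exact hU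
  have hcard : (Finset.univ : Finset (ZMod p)).card = p := by
    rw [Finset.card_univ, ZMod.card]
  have := Finset.card_le_mul_card_image_of_maps_to (s := T) (t := (Finset.univ : Finset (ZMod p)))
    (f := Prod.snd) (fun a _ => Finset.mem_univ _) 2 ?_
  · rw [hcard] at this; exact this
  · intro v _
    let P : Polynomial (ZMod p) := Polynomial.C (U : ZMod p) * Polynomial.X ^ 2 -
      Polynomial.C ((A : ZMod p) * v ^ 3 + (B : ZMod p))
    have hdeg : P.natDegree = 2 := by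
      have h1 : (Polynomial.C (U : ZMod p) * Polynomial.X ^ 2).natDegree = 2 :=
        Polynomial.natDegree_C_mul_X_pow 2 _ hU'
      rw [show P = Polynomial.C (U : ZMod p) * Polynomial.X ^ 2 -
        Polynomial.C ((A : ZMod p) * v ^ 3 + (B : ZMod p)) from rfl, Polynomial.natDegree_sub_C, h1]
    have hP : P ≠ 0 := by
      intro h0; rw [h0] at hdeg; simp at hdeg
    have h2 : (T.filter (fun a => a.2 = v)).card ≤ P.roots.toFinset.card := by
      refine Finset.card_le_card_of_injOn Prod.fst ?_ ?_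
      · intro t ht
        rw [Finset.mem_coe, Finset.mem_filter] at ht
        rw [Finset.mem_coe, Multiset.mem_toFinset, Polynomial.mem_roots hP, Polynomial.IsRoot.def]
        have := hT t ht.1
        rw [ht.2] at this
        simp only [P, Polynomial.eval_sub, Polynomial.eval_mul, Polynomial.eval_C,
          Polynomial.eval_pow, Polynomial.eval_X]
        rw [this, sub_self]
      · intro s hs t ht hst
        rw [Finset.mem_coe, Finset.mem_filter] at hs ht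
        exact Prod.ext hst (hs.2.trans ht.2.symm)
    calc (T.filter (fun a => a.2 = v)).card ≤ P.roots.toFinset.card := h2
      _ ≤ Multiset.card P.roots := Multiset.toFinset_card_le _
      _ ≤ P.natDegree := Polynomial.card_roots' P
      _ = 2 := hdeg

/-- points with `p ∤ U x` -/
theorem one_prime23 (m : ℕ) (p : ℕ) (hp : p.Prime) (hp3 : 2 < p) (U A B : ℤ) (hU : U ≠ 0)
    (hA : A ≠ 0) (X : ℕ) (hX : 1 ≤ X) (Z : ℝ) (hZ : 1 ≤ Z)
    (hbig : ((2 * (m + 1)).factorial : ℝ) * Z ^ (m * (m + 1)) * (X : ℝ) ^ (m + 1)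
      < (p : ℝ) ^ (2 * (m + 1) * (2 * (m + 1) - 1) / 2))
    (S : Finset (ℕ × ℕ))
    (hS : ∀ q ∈ S, q.1 ≤ X ∧ (q.2 : ℝ) ≤ Z ∧ U * (q.1 : ℤ) ^ 2 = A * (q.2 : ℤ) ^ 3 + B ∧
      ¬ (p : ℤ) ∣ U * (q.1 : ℤ)) :
    S.card ≤ (2 * m + 3) * (2 * p) := by
  classical
  let f : ℕ × ℕ → ZMod p × ZMod p := fun q => ((q.1 : ZMod p), (q.2 : ZMod p))
  by_cases hne : S = ∅
  · rw [hne]; simp
  have hUp : ¬ (p : ℤ) ∣ U := by
    obtain ⟨q, hq⟩ := Finset.nonempty_iff_ne_empty.2 hne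
    intro h
    exact (hS q hq).2.2.2 (Dvd.dvd.mul_right h _)
  have himg : (S.image f).card ≤ 2 * p := by
    refine curve23_mod_p p hp U A B hUp _ ?_
    intro t ht
    rw [Finset.mem_image] at ht
    obtain ⟨q, hq, rfl⟩ := ht
    have h1 := (hS q hq).2.2.1
    have h2 := congrArg (Int.cast : ℤ → ZMod p) h1
    push_cast at h2
    exact h2
  refine (Finset.card_le_mul_card_image S (2 * m + 3) ?_).trans (Nat.mul_le_mul_left _ himg)
  intro a ha
  rw [Finset.mem_image] at ha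
  obtain ⟨q₀, hq₀, rfl⟩ := ha
  let g : ℕ × ℕ → ℤ × ℤ := fun q => ((q.1 : ℤ), (q.2 : ℤ))
  have hg : Function.Injective g := by
    intro a b hab
    have h1 := congrArg Prod.fst hab
    have h2 := congrArg Prod.snd hab
    simp only [g] at h1 h2
    exact Prod.ext (by exact_mod_cast h1) (by exact_mod_cast h2)
  rw [← Finset.card_image_of_injective _ hg]
  have h3 : ¬ (p : ℤ) ∣ 2 * U * (q₀.1 : ℤ) := by
    intro h
    rw [mul_assoc] at h
    have hpz : Prime (p : ℤ) := Nat.prime_iff_prime_int.1 hp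
    rcases hpz.dvd_or_dvd h with h | h
    · have := Int.le_of_dvd (by norm_num) h
      omega
    · exact (hS q₀ hq₀).2.2.2 h
  refine one_class23 m p hp U A B (q₀.2 : ℤ) (q₀.1 : ℤ) hU hA h3 (X : ℝ) Z (by exact_mod_cast hX)
    hZ hbig _ ?_
  intro r hr
  rw [Finset.mem_image] at hr
  obtain ⟨q, hq, rfl⟩ := hr
  rw [Finset.mem_filter] at hq
  obtain ⟨hq1, hq2⟩ := hq
  have hq3 := hS q hq1
  have e1 : ((q.1 : ℕ) : ZMod p) = (q₀.1 : ZMod p) := congrArg Prod.fst hq2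
  have e2 : ((q.2 : ℕ) : ZMod p) = (q₀.2 : ZMod p) := congrArg Prod.snd hq2
  refine ⟨?_, hq3.2.2.1, ?_, ?_, ?_, ?_⟩
  · show (0 : ℤ) ≤ (q.1 : ℤ)
    positivity
  · show (p : ℤ) ∣ (q.1 : ℤ) - (q₀.1 : ℤ)
    rw [← ZMod.intCast_zmod_eq_zero_iff_dvd]
    push_cast
    rw [e1, sub_self]
  · show (p : ℤ) ∣ (q.2 : ℤ) - (q₀.2 : ℤ)
    rw [← ZMod.intCast_zmod_eq_zero_iff_dvd]
    push_cast
    rw [e2, sub_self]
  · show |(((q.1 : ℕ) : ℤ) : ℝ)| ≤ (X : ℝ)
    rw [Int.cast_natCast, abs_of_nonneg (Nat.cast_nonneg _)]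
    exact_mod_cast hq3.1
  · show |(((q.2 : ℕ) : ℤ) : ℝ)| ≤ Z
    rw [Int.cast_natCast, abs_of_nonneg (Nat.cast_nonneg _)]
    exact hq3.2.1

/-- the primes above `P0` satisfy the size condition of `one_class23` -/
theorem big_of_lt23 (m p : ℕ) (X Z : ℝ) (hX : 1 ≤ X) (hZ : 1 ≤ Z)
    (hp : ((2 * (m + 1)).factorial : ℝ) * Z ^ ((1 : ℝ) / 2) * X ^ ((1 : ℝ) / (2 * m + 1)) < p) :
    ((2 * (m + 1)).factorial : ℝ) * Z ^ (m * (m + 1)) * X ^ (m + 1)
      < (p : ℝ) ^ (2 * (m + 1) * (2 * (m + 1) - 1) / 2) := by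
  set D : ℝ := ((2 * (m + 1)).factorial : ℝ) with hD
  have hD1 : 1 ≤ D := by
    rw [hD]; exact_mod_cast Nat.succ_le_of_lt (Nat.factorial_pos _)
  have hE : 2 * (m + 1) * (2 * (m + 1) - 1) / 2 = (m + 1) * (2 * m + 1) := by
    have h1 : 2 * (m + 1) - 1 = 2 * m + 1 := by omega
    rw [h1, mul_assoc, Nat.mul_div_cancel_left _ (by norm_num)]
  rw [hE]
  set E : ℕ := (m + 1) * (2 * m + 1) with hEdef
  have hE1 : 1 ≤ E := by
    rw [hEdef]
    exact Nat.succ_le_of_lt (by positivity)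
  have hX0 : 0 < X := by linarith
  have hZ0 : 0 < Z := by linarith
  set P0 : ℝ := D * Z ^ ((1 : ℝ) / 2) * X ^ ((1 : ℝ) / (2 * m + 1)) with hP0
  have hP0pos : 0 < P0 := by positivity
  have h4 : P0 ^ E < (p : ℝ) ^ E := pow_lt_pow_left₀ hp hP0pos.le (by omega)
  refine lt_of_le_of_lt ?_ h4
  rw [hP0, mul_pow, mul_pow]
  have a1 : D ≤ D ^ E := le_self_pow₀ hD1 (by omega)
  have a2 : Z ^ (m * (m + 1)) ≤ (Z ^ ((1 : ℝ) / 2)) ^ E := by
    rw [← Real.rpow_natCast (Z ^ ((1 : ℝ) / 2)) E, ← Real.rpow_mul hZ0.le,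
      ← Real.rpow_natCast Z (m * (m + 1))]
    refine Real.rpow_le_rpow_of_exponent_le hZ ?_
    rw [hEdef]
    push_cast
    have b3 : (0 : ℝ) ≤ m := Nat.cast_nonneg m
    nlinarith
  have a3 : X ^ (m + 1) = (X ^ ((1 : ℝ) / (2 * m + 1))) ^ E := by
    rw [← Real.rpow_natCast (X ^ ((1 : ℝ) / (2 * m + 1))) E, ← Real.rpow_mul hX0.le,
      ← Real.rpow_natCast X]
    congr 1
    have b3 : (2 * (m : ℝ) + 1) ≠ 0 := by positivity
    rw [hEdef]
    push_cast
    field_simp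
  rw [← a3]
  have hXpos : 0 < X ^ (m + 1) := by positivity
  exact mul_le_mul_of_nonneg_right (mul_le_mul a1 a2 (by positivity) (by positivity)) hXpos.le

theorem curve_count23 (ε : ℝ) (hε : 0 < ε) :
    ∃ C : ℝ, 0 < C ∧ ∀ X : ℕ, 1 ≤ X → ∀ Z : ℝ, 1 ≤ Z → ∀ U A B : ℤ, U ≠ 0 → A ≠ 0 →
      |U| ≤ X → ∀ S : Finset (ℕ × ℕ),
      (∀ p ∈ S, 1 ≤ p.1 ∧ p.1 ≤ X ∧ (p.2 : ℝ) ≤ Z ∧
        U * (p.1 : ℤ) ^ 2 = A * (p.2 : ℤ) ^ 3 + B) →
      (S.card : ℝ) ≤ C * (X : ℝ) ^ ε * Z ^ ((1 : ℝ) / 2) := by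
  classical
  obtain ⟨m, hm⟩ := exists_nat_ge (1 / ε)
  set k : ℕ := 2 * (2 * m + 1) with hk
  set D : ℝ := ((2 * (m + 1)).factorial : ℝ) with hD
  have hD2 : 2 ≤ D := by
    rw [hD]
    have h1 : Nat.factorial 2 ≤ (2 * (m + 1)).factorial := Nat.factorial_le (by omega)
    have h2 : (Nat.factorial 2 : ℝ) ≤ ((2 * (m + 1)).factorial : ℝ) := by exact_mod_cast h1
    norm_num [Nat.factorial] at h2 ⊢
    exact h2
  refine ⟨(k : ℝ) * ((2 * m + 3) * (2 * (2 ^ k * (2 * D)))), by positivity, ?_⟩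
  intro X hX Z hZ U A B hU hA hUX S hS
  have hXr : (1 : ℝ) ≤ X := by exact_mod_cast hX
  set Y : ℝ := (X : ℝ) ^ ((1 : ℝ) / (2 * m + 1)) with hY
  have hY1 : 1 ≤ Y := Real.one_le_rpow hXr (by positivity)
  set P0 : ℝ := D * Z ^ ((1 : ℝ) / 2) * Y with hP0
  have hZ3 : 1 ≤ Z ^ ((1 : ℝ) / 2) := Real.one_le_rpow hZ (by norm_num)
  have hP0D : D ≤ P0 := by
    rw [hP0]
    have : 1 ≤ Z ^ ((1 : ℝ) / 2) * Y := by nlinarith
    rw [mul_assoc]
    nlinarith
  have hP0Y : Y ≤ P0 := by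
    rw [hP0]
    have : 1 ≤ D * Z ^ ((1 : ℝ) / 2) := by nlinarith
    nlinarith
  set P1 : ℕ := ⌈P0⌉₊ with hP1
  have hP1a : P0 ≤ P1 := Nat.le_ceil _
  have hP1b : (P1 : ℝ) ≤ 2 * P0 := by
    have := Nat.ceil_lt_add_one (show 0 ≤ P0 by linarith)
    linarith
  have hP1pos : 0 < P1 := by
    have : (0 : ℝ) < P1 := by linarith
    exact_mod_cast this
  have hex : ∀ i : ℕ, ∃ p : ℕ, p.Prime ∧ 2 ^ i * P1 < p ∧ p ≤ 2 ^ (i + 1) * P1 := by
    intro i
    obtain ⟨p, h1, h2, h3⟩ := Nat.exists_prime_lt_and_le_two_mul (2 ^ i * P1) (by positivity)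
    exact ⟨p, h1, h2, by rw [pow_succ]; linarith⟩
  choose pr hpr1 hpr2 hpr3 using hex
  have hmono : StrictMono pr := by
    refine strictMono_nat_of_lt_succ ?_
    intro n
    exact lt_of_le_of_lt (hpr3 n) (hpr2 (n + 1))
  have hprP0 : ∀ i, P0 < pr i := by
    intro i
    have h1 : ((2 ^ i * P1 : ℕ) : ℝ) < pr i := by exact_mod_cast hpr2 i
    have h2 : (1 : ℝ) ≤ 2 ^ i := one_le_pow₀ (by norm_num)
    have h3 : (P1 : ℝ) ≤ ((2 ^ i * P1 : ℕ) : ℝ) := by
      push_cast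
      have : (0 : ℝ) ≤ P1 := Nat.cast_nonneg _
      nlinarith
    linarith
  -- every point is good for one of the primes
  have hgood : ∀ q ∈ S, ∃ i ∈ Finset.range k, ¬ (pr i : ℤ) ∣ U * (q.1 : ℤ) := by
    intro q hq
    by_contra hcon
    push Not at hcon
    obtain ⟨hq1, hqX, _, _⟩ := hS q hq
    set n : ℕ := (U * (q.1 : ℤ)).natAbs with hn
    have hn0 : n ≠ 0 := by
      rw [hn, Int.natAbs_ne_zero]
      exact mul_ne_zero hU (by exact_mod_cast (by omega : q.1 ≠ 0))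
    have hdiv : ∀ i ∈ Finset.range k, pr i ∣ n := by
      intro i hi
      exact Int.natCast_dvd.1 (hcon i hi)
    have hprod : ∏ p ∈ (Finset.range k).image pr, p ∣ n := by
      refine Finset.prod_primes_dvd n ?_ ?_
      · intro a ha
        rw [Finset.mem_image] at ha
        obtain ⟨i, _, rfl⟩ := ha
        exact (hpr1 i).prime
      · intro a ha
        rw [Finset.mem_image] at ha
        obtain ⟨i, hi, rfl⟩ := ha
        exact hdiv i hi
    rw [Finset.prod_image (fun a _ b _ hab => hmono.injective hab)] at hprod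
    have hle : ∏ i ∈ Finset.range k, pr i ≤ n := Nat.le_of_dvd (Nat.pos_of_ne_zero hn0) hprod
    have hnX : n ≤ X * X := by
      rw [hn, Int.natAbs_mul, Int.natAbs_natCast]
      refine Nat.mul_le_mul ?_ hqX
      have : (U.natAbs : ℤ) ≤ X := by rw [Int.natCast_natAbs]; exact hUX
      exact_mod_cast this
    have hlt : Y ^ k < ∏ i ∈ Finset.range k, (pr i : ℝ) := by
      have h1 : ∏ i ∈ Finset.range k, Y < ∏ i ∈ Finset.range k, (pr i : ℝ) := by
        refine Finset.prod_lt_prod_of_nonempty (fun _ _ => by linarith) ?_ ?_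
        · intro i _
          exact lt_of_le_of_lt hP0Y (hprP0 i)
        · exact ⟨0, by rw [Finset.mem_range, hk]; omega⟩
      rwa [Finset.prod_const, Finset.card_range] at h1
    have hYk : Y ^ k = (X : ℝ) * X := by
      rw [hY, ← Real.rpow_natCast, ← Real.rpow_mul (by linarith)]
      have : (1 : ℝ) / (2 * m + 1) * (k : ℕ) = 2 := by
        rw [hk]; push_cast
        have : (2 * (m : ℝ) + 1) ≠ 0 := by positivity
        field_simp
      rw [this, Real.rpow_two, sq]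
    have h5 : ((∏ i ∈ Finset.range k, pr i : ℕ) : ℝ) ≤ (X : ℝ) * X := by
      exact_mod_cast hle.trans hnX
    push_cast at h5
    linarith
  -- the cover
  let T : ℕ → Finset (ℕ × ℕ) := fun i => S.filter (fun q => ¬ (pr i : ℤ) ∣ U * (q.1 : ℤ))
  have hcover : S ⊆ (Finset.range k).biUnion T := by
    intro q hq
    obtain ⟨i, hi, hi'⟩ := hgood q hq
    rw [Finset.mem_biUnion]
    exact ⟨i, hi, Finset.mem_filter.2 ⟨hq, hi'⟩⟩
  have hT : ∀ i ∈ Finset.range k, (T i).card ≤ (2 * m + 3) * (2 * (2 ^ k * P1)) := by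
    intro i hi
    have h1 : (T i).card ≤ (2 * m + 3) * (2 * pr i) := by
      refine one_prime23 m (pr i) (hpr1 i) ?_ U A B hU hA X hX Z hZ ?_ (T i) ?_
      · have h2 := hprP0 i
        have : (2 : ℝ) < pr i := by linarith
        exact_mod_cast this
      · exact big_of_lt23 m (pr i) X Z hXr hZ (hprP0 i)
      · intro q hq
        rw [Finset.mem_filter] at hq
        obtain ⟨_, h2, h5, h6⟩ := hS q hq.1
        exact ⟨h2, h5, h6, hq.2⟩
    refine h1.trans (Nat.mul_le_mul_left _ (Nat.mul_le_mul_left _ ((hpr3 i).trans ?_)))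
    refine Nat.mul_le_mul_right _ (Nat.pow_le_pow_right (by norm_num) ?_)
    rw [Finset.mem_range] at hi
    omega
  have hcard : S.card ≤ k * ((2 * m + 3) * (2 * (2 ^ k * P1))) := by
    calc S.card ≤ ((Finset.range k).biUnion T).card := Finset.card_le_card hcover
      _ ≤ ∑ i ∈ Finset.range k, (T i).card := Finset.card_biUnion_le
      _ ≤ ∑ i ∈ Finset.range k, (2 * m + 3) * (2 * (2 ^ k * P1)) := Finset.sum_le_sum hT
      _ = k * ((2 * m + 3) * (2 * (2 ^ k * P1))) := by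
          rw [Finset.sum_const, Finset.card_range, smul_eq_mul]
  have hcard' : (S.card : ℝ) ≤ (k : ℝ) * ((2 * m + 3) * (2 * (2 ^ k * (P1 : ℝ)))) := by
    exact_mod_cast hcard
  have hYX : Y ≤ (X : ℝ) ^ ε := by
    rw [hY]
    refine Real.rpow_le_rpow_of_exponent_le hXr ?_
    rw [div_le_iff₀ (by positivity)]
    rw [div_le_iff₀ hε] at hm
    nlinarith
  calc (S.card : ℝ) ≤ (k : ℝ) * ((2 * m + 3) * (2 * (2 ^ k * (P1 : ℝ)))) := hcard'
    _ ≤ (k : ℝ) * ((2 * m + 3) * (2 * (2 ^ k * (2 * P0)))) := by gcongr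
    _ = (k : ℝ) * ((2 * m + 3) * (2 * (2 ^ k * (2 * D)))) * Y * Z ^ ((1 : ℝ) / 2) := by
        rw [hP0]; ring
    _ ≤ (k : ℝ) * ((2 * m + 3) * (2 * (2 ^ k * (2 * D)))) * (X : ℝ) ^ ε * Z ^ ((1 : ℝ) / 2) := by
        gcongr

end Pool.Agent.H925R.Two
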