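import Pool.Agent.H925R.Two.Arith

/-!
# The triple attached to a minimal model with a rational 2-torsion point
-/

set_option autoImplicit false
set_option linter.unusedVariables false

namespace Pool.Agent.H925R.Two

open Finset
open Pool.Agent.H328R2.ABC
open Pool.Agent.H925R.Szpiro (D IsMin condS)

theorem dvd_of_dvd_three_mul {p : ℕ} (hp : p.Prime) (h3 : p ≠ 3) {k : ℕ} {e : ℤ}
    (h : (p : ℤ) ^ k ∣ 3 * e) : (p : ℤ) ^ k ∣ e := by
  have hc : IsCoprime ((p : ℤ) ^ k) 3 := by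
    have : Nat.Coprime (p ^ k) 3 :=
      Nat.Coprime.pow_left _ ((Nat.coprime_primes hp Nat.prime_three).mpr h3)
    exact_mod_cast Nat.isCoprime_iff_coprime.mpr this
  exact hc.dvd_of_dvd_mul_left h

theorem nat_dvd_four_mul {p : ℕ} (hp : p.Prime) (h2 : p ≠ 2) {k n : ℕ}
    (h : p ^ k ∣ 4 * n) : p ^ k ∣ n := by
  have hc : Nat.Coprime (p ^ k) 4 := by
    have : Nat.Coprime p 2 := (Nat.coprime_primes hp Nat.prime_two).mpr h2
    have h4 : Nat.Coprime p (2 ^ 2) := Nat.Coprime.pow_right _ this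
    exact Nat.Coprime.pow_left _ (by norm_num at h4; exact h4)
  exact hc.dvd_of_dvd_mul_left h

theorem two_data (a b e : ℤ) (hmin : IsMin a b) (he : e ^ 3 = a * e + b) (he0 : e ≠ 0) :
    ∃ (c G1 Ga Gb G3 x y z : ℕ) (sB : ℤ), (sB = 1 ∨ sB = -1) ∧ 0 < c ∧ c ≤ 6 ^ 5 ∧ 0 < G1 ∧
      0 < Ga ∧ 0 < Gb ∧ 0 < G3 ∧ 0 < x ∧ 0 < y ∧ 0 < z ∧ Nat.Coprime y z ∧
      (x + y = z ∨ x + z = y ∨ y + z = x) ∧
      9 * e ^ 2 = ((c * G1 * (Ga * Gb) ^ 2 * G3 ^ 3 : ℕ) : ℤ) * x ∧
      4 * (3 * e ^ 2 - a) = sB * (((c * G1 * (Ga * Gb) ^ 2 * G3 ^ 3 : ℕ) : ℤ) * y) ∧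
      |9 * e ^ 2 - 4 * (3 * e ^ 2 - a)| = ((c * G1 * (Ga * Gb) ^ 2 * G3 ^ 3 : ℕ) : ℤ) * z ∧
      Ga ∣ y * z ∧
      rad (y * z) * (Ga * (G1 * G3 * Gb)) * (G1 * G3 * Gb) ≤ 6 * condS a b := by
  classical
  set A : ℤ := 3 * e with hA
  set B : ℤ := 3 * e ^ 2 - a with hB
  have hDAB : D a b = B ^ 2 * (A ^ 2 - 4 * B) := by
    unfold D
    have h1 : b = e ^ 3 - a * e := by linarith
    have h2 : a = 3 * e ^ 2 - B := by rw [hB]; ring
    rw [h1, h2, hA]
    ring
  have hB0 : B ≠ 0 := by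
    intro h
    apply hmin.1
    rw [hDAB, h]; ring
  have hC0 : A ^ 2 - 4 * B ≠ 0 := by
    intro h
    apply hmin.1
    rw [hDAB, h]; ring
  have hA0 : A ≠ 0 := by
    rw [hA]
    intro h
    apply he0
    linarith
  set An : ℕ := A.natAbs with hAn
  set Bn : ℕ := B.natAbs with hBn
  have hAn0 : An ≠ 0 := Int.natAbs_ne_zero.mpr hA0
  have hBn0 : Bn ≠ 0 := Int.natAbs_ne_zero.mpr hB0
  have hAsq : A ^ 2 = ((An ^ 2 : ℕ) : ℤ) := by
    rw [hAn]; push_cast; rw [sq_abs]
  set G : ℕ := Nat.gcd (An ^ 2) (4 * Bn) with hG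
  have hGpos : 0 < G := Nat.gcd_pos_of_pos_left _ (by positivity)
  obtain ⟨x, hx⟩ : G ∣ An ^ 2 := Nat.gcd_dvd_left _ _
  obtain ⟨y, hy⟩ : G ∣ 4 * Bn := Nat.gcd_dvd_right _ _
  have hx0 : 0 < x := Nat.pos_of_ne_zero (fun h => by
    rw [h, mul_zero] at hx
    exact hAn0 (pow_eq_zero_iff (by norm_num) |>.mp hx))
  have hy0 : 0 < y := Nat.pos_of_ne_zero (fun h => by rw [h, mul_zero] at hy; omega)
  have hxy : Nat.Coprime x y := by
    have := Nat.coprime_div_gcd_div_gcd (m := An ^ 2) (n := 4 * Bn) hGpos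
    rw [← hG, hx, hy, Nat.mul_div_cancel_left _ hGpos, Nat.mul_div_cancel_left _ hGpos] at this
    exact this
  obtain ⟨sB, hsB, hBs⟩ : ∃ sB : ℤ, (sB = 1 ∨ sB = -1) ∧ B = sB * (Bn : ℤ) := by
    rcases le_total 0 B with h0 | h0
    · exact ⟨1, Or.inl rfl, by rw [hBn, Int.natCast_natAbs, abs_of_nonneg h0]; ring⟩
    · exact ⟨-1, Or.inr rfl, by rw [hBn, Int.natCast_natAbs, abs_of_nonpos h0]; ring⟩
  have h4B : 4 * B = sB * ((G : ℤ) * y) := by
    have : ((4 * Bn : ℕ) : ℤ) = ((G * y : ℕ) : ℤ) := by rw [hy]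
    push_cast at this
    rw [hBs, ← this]; ring
  have hA2 : A ^ 2 = (G : ℤ) * x := by
    rw [hAsq, hx]; push_cast; ring
  have hC : A ^ 2 - 4 * B = (G : ℤ) * ((x : ℤ) - sB * y) := by
    rw [hA2, h4B]; ring
  set z : ℕ := ((x : ℤ) - sB * y).natAbs with hz
  have hz0 : 0 < z := by
    rw [hz]
    apply Nat.pos_of_ne_zero
    rw [Int.natAbs_ne_zero]
    intro h
    apply hC0
    rw [hC, h, mul_zero]
  have hCz : |A ^ 2 - 4 * B| = (G : ℤ) * z := by
    rw [hC, abs_mul, hz, Int.natCast_natAbs]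
    congr 1
    exact abs_of_nonneg (by positivity)
  have hrel : x + y = z ∨ x + z = y ∨ y + z = x := by
    rcases hsB with h | h
    · rw [h, one_mul] at hz
      rcases le_total x y with h1 | h1
      · right; left; omega
      · right; right; omega
    · rw [h] at hz
      left; omega
  have hyz : Nat.Coprime y z := by
    rcases hrel with h | h | h
    · rw [← h]
      simpa using hxy.symm
    · have : y = z + x := by omega
      rw [this] at hxy ⊢
      have h9 : Nat.Coprime x z := by simpa [Nat.coprime_add_self_right] using hxy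
      simpa using h9
    · rw [← h] at hxy
      have : Nat.Coprime z y := by simpa [Nat.coprime_comm] using hxy
      exact this.symm
  have hxz : Nat.Coprime x z := by
    rcases hrel with h | h | h
    · rw [← h]
      simpa using hxy
    · rw [← h] at hxy
      simpa using hxy
    · rw [← h] at hxy ⊢
      have h1 : Nat.Coprime z y := by simpa [Nat.coprime_comm] using hxy
      simpa using h1.symm
  -- bounds for the exponents
  have hcast : ∀ {m k : ℕ}, m ^ k ∣ An → (m : ℤ) ^ k ∣ A := by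
    intro m k h
    have : ((m ^ k : ℕ) : ℤ) ∣ A := Int.natCast_dvd.mpr h
    exact_mod_cast this
  have hcastB : ∀ {m k : ℕ}, m ^ k ∣ Bn → (m : ℤ) ^ k ∣ B := by
    intro m k h
    have : ((m ^ k : ℕ) : ℤ) ∣ B := Int.natCast_dvd.mpr h
    exact_mod_cast this
  have h5 : ∀ p : ℕ, p.Prime → 5 ≤ p → ¬ p ^ 4 ∣ G := by
    intro p hp hp5 hd
    have d1 : p ^ (2 * 2 - 1) ∣ An ^ 2 :=
      (pow_dvd_pow p (by norm_num)).trans (hd.trans (Nat.gcd_dvd_left _ _))
    have d2 := pow_dvd_of_sq hp hAn0 (by norm_num) d1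
    have d3 := dvd_of_dvd_three_mul hp (by omega) (hcast d2)
    have d4 := nat_dvd_four_mul hp (by omega) (hd.trans (Nat.gcd_dvd_right _ _))
    exact min_no_pow a b e hmin he p hp.two_le d3 (hcastB d4)
  have h2 : ¬ 2 ^ 6 ∣ G := by
    intro hd
    have d1 : 2 ^ (2 * 3 - 1) ∣ An ^ 2 :=
      (pow_dvd_pow 2 (by norm_num)).trans (hd.trans (Nat.gcd_dvd_left _ _))
    have d2 := pow_dvd_of_sq Nat.prime_two hAn0 (by norm_num) d1
    have d3 := dvd_of_dvd_three_mul Nat.prime_two (by norm_num) (hcast d2)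
    have d4 : 2 ^ 6 ∣ 4 * Bn := hd.trans (Nat.gcd_dvd_right _ _)
    have d5 : 2 ^ 4 ∣ Bn := by
      obtain ⟨q, hq⟩ := d4
      exact ⟨q, by omega⟩
    refine min_no_pow a b e hmin he 2 (le_refl _) ?_ (hcastB d5)
    exact (pow_dvd_pow _ (by norm_num)).trans d3
  have h3 : ¬ 3 ^ 6 ∣ G := by
    intro hd
    have d1 : 3 ^ (2 * 3 - 1) ∣ An ^ 2 :=
      (pow_dvd_pow 3 (by norm_num)).trans (hd.trans (Nat.gcd_dvd_left _ _))
    have d2 := pow_dvd_of_sq Nat.prime_three hAn0 (by norm_num) d1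
    have d3 := hcast d2
    have d3' : ((3 : ℕ) : ℤ) ^ 2 ∣ e := by
      obtain ⟨q, hq⟩ := d3
      refine ⟨q, ?_⟩
      rw [hA] at hq
      push_cast at hq ⊢
      linarith
    have d4 := nat_dvd_four_mul Nat.prime_three (by norm_num) (hd.trans (Nat.gcd_dvd_right _ _))
    exact min_no_pow a b e hmin he 3 (by norm_num) d3'
      ((pow_dvd_pow _ (by norm_num)).trans (hcastB d4))
  -- parity
  have hodd : ∀ p : ℕ, p.Prime → 5 ≤ p → p ∣ G → p ∣ y * z → G.factorization p = 2 := by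
    intro p hp hp5 hpG hpn
    have v1 : 1 ≤ G.factorization p := (hp.dvd_iff_one_le_factorization hGpos.ne').mp hpG
    have v3 : G.factorization p ≤ 3 := by
      by_contra hcon
      push Not at hcon
      exact h5 p hp hp5 ((hp.pow_dvd_iff_le_factorization hGpos.ne').mpr hcon)
    by_contra hne
    have e1 : G.factorization p + x.factorization p = 2 * An.factorization p := by
      have := congrArg (fun n : ℕ => n.factorization p) hx
      beta_reduce at this
      rw [Nat.factorization_pow, Nat.factorization_mul hGpos.ne' hx0.ne'] at this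
      simp only [Finsupp.smul_apply, Finsupp.add_apply, smul_eq_mul] at this
      omega
    have hpx : p ∣ x := by
      rw [hp.dvd_iff_one_le_factorization hx0.ne']
      omega
    rcases hp.dvd_mul.mp hpn with h | h
    · exact Nat.not_coprime_of_dvd_of_dvd hp.one_lt hpx h hxy
    · exact Nat.not_coprime_of_dvd_of_dvd hp.one_lt hpx h hxz
  obtain ⟨c, G1, Ga, Gb, G3, hc, hc6, hG1, hGa, hGb, hG3, hGfac, hGan, hp1, hp2⟩ :=
    decomp G hGpos h5 h2 h3 (y * z) hodd
  -- divisibilities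
  have hpe : ∀ p : ℕ, p.Prime → 5 ≤ p → p ∣ G → (p : ℤ) ∣ e ∧ (p : ℤ) ∣ B := by
    intro p hp hp5 hpG
    have d1 : p ∣ An := hp.dvd_of_dvd_pow (hpG.trans (Nat.gcd_dvd_left _ _))
    have d2 : (p : ℤ) ^ 1 ∣ 3 * e := by
      have := hcast (m := p) (k := 1) (by rw [pow_one]; exact d1)
      exact this
    have d3 := dvd_of_dvd_three_mul hp (by omega) d2
    have d4 : p ^ 1 ∣ 4 * Bn := by
      rw [pow_one]; exact hpG.trans (Nat.gcd_dvd_right _ _)
    have d5 := nat_dvd_four_mul hp (by omega) d4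
    refine ⟨by simpa using d3, by simpa using hcastB d5⟩
  have hlow := cond_lower a b hmin.1 (G.primeFactors.filter (fun p => 5 ≤ p)) (y * z)
    (by positivity) (by
      intro p hp
      rw [mem_filter] at hp
      have hpp := Nat.prime_of_mem_primeFactors hp.1
      obtain ⟨q1, q2⟩ := hpe p hpp hp.2 (Nat.dvd_of_mem_primeFactors hp.1)
      refine ⟨hpp, hp.2, ?_, ?_⟩
      · have : a = 3 * e ^ 2 - B := by rw [hB]; ring
        rw [this]
        exact dvd_sub ((q1.pow (by norm_num)).mul_left 3) q2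
      · rw [hDAB]
        exact (q2.pow (by norm_num)).mul_right _) (by
      intro p hp hp5 hpn
      rw [hDAB]
      rcases hp.dvd_mul.mp hpn with h | h
      · have d4 : p ^ 1 ∣ 4 * Bn := by
          rw [pow_one, hy]; exact h.mul_left _
        have d5 := nat_dvd_four_mul hp (by omega) d4
        have d6 : (p : ℤ) ∣ B := by simpa using hcastB d5
        exact (d6.pow (by norm_num)).mul_right _
      · refine Dvd.dvd.mul_left ?_ _
        rw [hC]
        refine Dvd.dvd.mul_left ?_ _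
        rw [Int.natCast_dvd]
        exact h)
  rw [hp1, hp2] at hlow
  refine ⟨c, G1, Ga, Gb, G3, x, y, z, sB, hsB, hc, hc6, hG1, hGa, hGb, hG3, hx0, hy0, hz0, hyz, hrel,
    ?_, ?_, ?_, hGan, hlow⟩
  · rw [← hGfac, ← hA2, hA]; ring
  · rw [← hGfac, ← h4B]
  · rw [← hGfac, ← hCz, hA]
    congr 1
    ring

end Pool.Agent.H925R.Two
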