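import Pool.Agent.H328R2.ABC.LP

/-!
The linear programme behind the exponent `7/16` (in terms of the largest term) with gain
`Λ^(-3/8)`.
-/

set_option autoImplicit false
set_option linter.unusedVariables false

namespace Pool.Agent.H925R.Two

open Finset
open Pool.Agent.H328R2.ABC

/-- the smallest term is the term `y` (with weight 2) -/
theorem lp0 (y1 y2 y3 y4 y5 sy z1 z2 z3 z4 z5 sz ξ L σ θ : ℝ)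
    (hy1 : 0 ≤ y1) (hy2 : 0 ≤ y2) (hy3 : 0 ≤ y3) (hy4 : 0 ≤ y4) (hy5 : 0 ≤ y5) (hsy : 5 * y5 ≤ sy)
    (hz1 : 0 ≤ z1) (hz2 : 0 ≤ z2) (hz3 : 0 ≤ z3) (hz4 : 0 ≤ z4) (hz5 : 0 ≤ z5) (hsz : 5 * z5 ≤ sz)
    (hL : 0 ≤ L) (hσ : 0 ≤ σ) (hθ : θ = 7 / 16 + 10 * σ - 3 / 8 * L)
    (hY : y1 + 2 * y2 + 3 * y3 + 4 * y4 + sy ≤ 1) (hZ : z1 + 2 * z2 + 3 * z3 + 4 * z4 + sz ≤ 1)
    (hξ : ξ ≤ 1)
    (hZ' : 1 - σ ≤ z1 + 2 * z2 + 3 * z3 + 4 * z4 + sz) (hξ' : 1 - σ ≤ ξ)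
    (hR : (y1 + y2 + y3 + y4 + y5) + (z1 + z2 + z3 + z4 + z5) + L ≤
      (2 * (y1 + 2 * y2 + 3 * y3 + 4 * y4 + sy) + (z1 + 2 * z2 + 3 * z3 + 4 * z4 + sz)) / 6 + σ)
    (hT : θ < (y1 + y2 + y3 + y4 + y5) + (z1 + z2 + z3 + z4 + z5))
    (hC1 : θ < (y1 + y2 + y4 + y5) + (z1 + z2 + z3 + z4 + z5) + y3 / 2)
    (hC2 : θ < (z1 + z2 + z4 + z5) + (y1 + y2 + y3 + y4 + y5) + z3 / 2)
    -- modulus All on y, J = {4} on z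
    (h1 : θ < (z1 + z2 + z3 + z5) + (y1 + y2 + y3 + y4 + y5) ∨
      θ < (z1 + z2 + z3 + z5) + (y1 + y2 + y3 + y4 + y5) + (ξ + 4 * z4) / 2
        - (y1 + 2 * y2 + 3 * y3 + 4 * y4 + sy) + ((y1 + 2 * y2 + 3 * y3 + 4 * y4 + sy) - 1))
    -- modulus {2,4,5} on y, J = {2} on z
    (h2 : θ < (z1 + z3 + z4 + z5) + (y2 + y4 + y5) ∨
      θ < (z1 + z3 + z4 + z5) + (y2 + y4 + y5) + (ξ + 2 * z2) / 2
        - (2 * y2 + 4 * y4 + sy) + ((y1 + 2 * y2 + 3 * y3 + 4 * y4 + sy) - 1))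
    -- modulus {2,5} on z, J = {2,4} on y
    (h3 : θ < (y1 + y3 + y5) + (z2 + z5) ∨
      θ < (y1 + y3 + y5) + (z2 + z5) + (ξ + (2 * y2 + 4 * y4)) / 2 - (2 * z2 + sz))
    -- modulus {2,3,5} on z, J = {4} on y
    (h4 : θ < (y1 + y2 + y3 + y5) + (z2 + z3 + z5) ∨
      θ < (y1 + y2 + y3 + y5) + (z2 + z3 + z5) + (ξ + 4 * y4) / 2 - (2 * z2 + 3 * z3 + sz)) :
    False := by
  rcases h1 with h1 | h1
  · rcases h2 with h2 | h2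
    · rcases h3 with h3 | h3
      · linarith
      · rcases h4 with h4 | h4
        · linarith
        · linarith
    · linarith
  · linarith

/-- the smallest term is the term `z` (with weight 1) -/
theorem lp1 (y1 y2 y3 y4 y5 sy z1 z2 z3 z4 z5 sz ξ L σ θ : ℝ)
    (hy1 : 0 ≤ y1) (hy2 : 0 ≤ y2) (hy3 : 0 ≤ y3) (hy4 : 0 ≤ y4) (hy5 : 0 ≤ y5) (hsy : 5 * y5 ≤ sy)
    (hz1 : 0 ≤ z1) (hz2 : 0 ≤ z2) (hz3 : 0 ≤ z3) (hz4 : 0 ≤ z4) (hz5 : 0 ≤ z5) (hsz : 5 * z5 ≤ sz)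
    (hL : 0 ≤ L) (hσ : 0 ≤ σ) (hθ : θ = 7 / 16 + 10 * σ - 3 / 8 * L)
    (hY : y1 + 2 * y2 + 3 * y3 + 4 * y4 + sy ≤ 1) (hZ : z1 + 2 * z2 + 3 * z3 + 4 * z4 + sz ≤ 1)
    (hξ : ξ ≤ 1)
    (hY' : 1 - σ ≤ y1 + 2 * y2 + 3 * y3 + 4 * y4 + sy) (hξ' : 1 - σ ≤ ξ)
    (hR : (y1 + y2 + y3 + y4 + y5) + (z1 + z2 + z3 + z4 + z5) + L ≤
      (2 * (y1 + 2 * y2 + 3 * y3 + 4 * y4 + sy) + (z1 + 2 * z2 + 3 * z3 + 4 * z4 + sz)) / 6 + σ)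
    (hT : θ < (y1 + y2 + y3 + y4 + y5) + (z1 + z2 + z3 + z4 + z5))
    (hC1 : θ < (y1 + y2 + y4 + y5) + (z1 + z2 + z3 + z4 + z5) + y3 / 2)
    (hC2 : θ < (z1 + z2 + z4 + z5) + (y1 + y2 + y3 + y4 + y5) + z3 / 2)
    -- modulus {2,3,4,5} on z, J = {2,4} on y
    (h1 : θ < (y1 + y3 + y5) + (z2 + z3 + z4 + z5) ∨
      θ < (y1 + y3 + y5) + (z2 + z3 + z4 + z5) + (ξ + (2 * y2 + 4 * y4)) / 2
        - (2 * z2 + 3 * z3 + 4 * z4 + sz) + ((z1 + 2 * z2 + 3 * z3 + 4 * z4 + sz) - 1))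
    -- modulus {3,5} on y, J = {2,4} on z
    (h2 : θ < (z1 + z3 + z5) + (y3 + y5) ∨
      θ < (z1 + z3 + z5) + (y3 + y5) + (ξ + (2 * z2 + 4 * z4)) / 2 - (3 * y3 + sy))
    -- modulus {5} on z, J = ∅ on y
    (h3 : θ < (y1 + y2 + y3 + y4 + y5) + z5 ∨
      θ < (y1 + y2 + y3 + y4 + y5) + z5 + (ξ + 0) / 2 - sz
        + ((z1 + 2 * z2 + 3 * z3 + 4 * z4 + sz) - 1))
    -- modulus {4,5} on y, J = ∅ on z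
    (h4 : θ < (z1 + z2 + z3 + z4 + z5) + (y4 + y5) ∨
      θ < (z1 + z2 + z3 + z4 + z5) + (y4 + y5) + (ξ + 0) / 2 - (4 * y4 + sy)) :
    False := by
  rcases h1 with h1 | h1
  · rcases h2 with h2 | h2
    · rcases h3 with h3 | h3
      · rcases h4 with h4 | h4
        · linarith
        · linarith
      · linarith
    · linarith
  · linarith

/-- the smallest term is the term `x` -/
theorem lp2 (y1 y2 y3 y4 y5 sy z1 z2 z3 z4 z5 sz ξ L σ θ : ℝ)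
    (hy1 : 0 ≤ y1) (hy2 : 0 ≤ y2) (hy3 : 0 ≤ y3) (hy4 : 0 ≤ y4) (hy5 : 0 ≤ y5) (hsy : 5 * y5 ≤ sy)
    (hz1 : 0 ≤ z1) (hz2 : 0 ≤ z2) (hz3 : 0 ≤ z3) (hz4 : 0 ≤ z4) (hz5 : 0 ≤ z5) (hsz : 5 * z5 ≤ sz)
    (hL : 0 ≤ L) (hσ : 0 ≤ σ) (hθ : θ = 7 / 16 + 10 * σ - 3 / 8 * L)
    (hY : y1 + 2 * y2 + 3 * y3 + 4 * y4 + sy ≤ 1) (hZ : z1 + 2 * z2 + 3 * z3 + 4 * z4 + sz ≤ 1)
    (hξ : ξ ≤ 1)
    (hY' : 1 - σ ≤ y1 + 2 * y2 + 3 * y3 + 4 * y4 + sy)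
    (hZ' : 1 - σ ≤ z1 + 2 * z2 + 3 * z3 + 4 * z4 + sz)
    (hR : (y1 + y2 + y3 + y4 + y5) + (z1 + z2 + z3 + z4 + z5) + L ≤
      (2 * (y1 + 2 * y2 + 3 * y3 + 4 * y4 + sy) + (z1 + 2 * z2 + 3 * z3 + 4 * z4 + sz)) / 6 + σ)
    (hT : θ < (y1 + y2 + y3 + y4 + y5) + (z1 + z2 + z3 + z4 + z5))
    (hC1 : θ < (y1 + y2 + y4 + y5) + (z1 + z2 + z3 + z4 + z5) + y3 / 2)
    (hC2 : θ < (z1 + z2 + z4 + z5) + (y1 + y2 + y3 + y4 + y5) + z3 / 2)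
    -- modulus All on y, J = {2,4} on z
    (h1 : θ < (z1 + z3 + z5) + (y1 + y2 + y3 + y4 + y5) ∨
      θ < (z1 + z3 + z5) + (y1 + y2 + y3 + y4 + y5) + (ξ + (2 * z2 + 4 * z4)) / 2
        - (y1 + 2 * y2 + 3 * y3 + 4 * y4 + sy))
    -- modulus {3,5} on z, J = {4} on y
    (h2 : θ < (y1 + y2 + y3 + y5) + (z3 + z5) ∨
      θ < (y1 + y2 + y3 + y5) + (z3 + z5) + (ξ + 4 * y4) / 2 - (3 * z3 + sz))
    -- modulus {2,5} on y, J = {4} on z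
    (h3 : θ < (z1 + z2 + z3 + z5) + (y2 + y5) ∨
      θ < (z1 + z2 + z3 + z5) + (y2 + y5) + (ξ + 4 * z4) / 2 - (2 * y2 + sy))
    -- modulus {5} on z, J = {2} on y
    (h4 : θ < (y1 + y3 + y4 + y5) + z5 ∨
      θ < (y1 + y3 + y4 + y5) + z5 + (ξ + 2 * y2) / 2 - sz) :
    False := by
  rcases h1 with h1 | h1
  · rcases h2 with h2 | h2
    · rcases h3 with h3 | h3
      · rcases h4 with h4 | h4
        · linarith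
        · linarith
      · linarith
    · linarith
  · linarith

end Pool.Agent.H925R.Two
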