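import Pool.Agent.H925R.Two.Core

/-!
# The counting theorem for triples with a term `V s²`
-/

set_option autoImplicit false
set_option linter.unusedVariables false

namespace Pool.Agent.H925R.Two

open Finset
open Pool.Agent.H328R2.ABC

/-- a family of conditions, each counted with `C X^ε Q`: their union too -/
theorem union_bound2 {ι : Type} (F : Finset ι) (k : Fin 3) (P : ι → ℝ → ℕ × ℕ → Prop) (ε : ℝ)
    (h : ∀ i ∈ F, ∃ C : ℝ, 0 < C ∧ ∀ V : ℕ, 0 < V → ∀ X : ℕ, 1 ≤ X → ∀ Q : ℝ, 1 ≤ Q →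
      ∀ S : Finset (ℕ × ℕ), (∀ t ∈ S, Adm X t ∧ isX V k t.1 t.2 ∧ P i Q t) →
      (S.card : ℝ) ≤ C * (X : ℝ) ^ ε * Q) :
    ∃ C : ℝ, 0 < C ∧ ∀ V : ℕ, 0 < V → ∀ X : ℕ, 1 ≤ X → ∀ Q : ℝ, 1 ≤ Q → ∀ S : Finset (ℕ × ℕ),
      (∀ t ∈ S, Adm X t ∧ isX V k t.1 t.2 ∧ ∃ i ∈ F, P i Q t) →
      (S.card : ℝ) ≤ C * (X : ℝ) ^ ε * Q := by
  classical
  choose! C hC h using h
  refine ⟨∑ i ∈ F, C i + 1, by
    have := sum_nonneg (fun i hi => (hC i hi).le)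
    linarith, ?_⟩
  intro V hV X hX Q hQ S hS
  have hsub : S ⊆ F.biUnion (fun i => S.filter (fun t => P i Q t)) := by
    intro t ht
    obtain ⟨i, hi, hP⟩ := (hS t ht).2.2
    exact mem_biUnion.mpr ⟨i, hi, mem_filter.mpr ⟨ht, hP⟩⟩
  have h1 : (S.card : ℝ) ≤ ∑ i ∈ F, ((S.filter (fun t => P i Q t)).card : ℝ) := by
    exact_mod_cast (card_le_card hsub).trans card_biUnion_le
  have h2 : ∑ i ∈ F, ((S.filter (fun t => P i Q t)).card : ℝ) ≤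
      ∑ i ∈ F, C i * (X : ℝ) ^ ε * Q := by
    refine sum_le_sum (fun i hi => h i hi V hV X hX Q hQ _ ?_)
    intro t ht
    rw [mem_filter] at ht
    exact ⟨(hS t ht.1).1, (hS t ht.1).2.1, ht.2⟩
  have h3 : (0 : ℝ) ≤ (X : ℝ) ^ ε * Q := by positivity
  calc (S.card : ℝ) ≤ ∑ i ∈ F, C i * (X : ℝ) ^ ε * Q := h1.trans h2
    _ = (∑ i ∈ F, C i) * ((X : ℝ) ^ ε * Q) := by rw [sum_mul]; simp [mul_assoc]
    _ ≤ (∑ i ∈ F, C i + 1) * ((X : ℝ) ^ ε * Q) := by nlinarith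
    _ = _ := by ring

theorem count_any2 (k : Fin 3) (ε : ℝ) (hε : 0 < ε) :
    ∃ C : ℝ, 0 < C ∧ ∀ V : ℕ, 0 < V → ∀ X : ℕ, 1 ≤ X → ∀ Q : ℝ, 1 ≤ Q → ∀ S : Finset (ℕ × ℕ),
      (∀ t ∈ S, Adm X t ∧ isX V k t.1 t.2 ∧ anyCond2 k Q t.1 t.2) →
      (S.card : ℝ) ≤ C * (X : ℝ) ^ ε * Q := by
  classical
  obtain ⟨C1, hC1, h1⟩ := countT k ε hε
  obtain ⟨C2, hC2, h2⟩ := union_bound2 ((univ : Finset (Fin 3 × Fin 3)).filter
    (fun x => k ≠ x.1 ∧ k ≠ x.2 ∧ x.1 ≠ x.2)) k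
    (fun x Q t => condC x.1 x.2 Q t.1 t.2) ε (fun x hx => by
      rw [mem_filter] at hx
      exact countC k _ _ hx.2.1 hx.2.2.1 hx.2.2.2 ε hε)
  obtain ⟨C3, hC3, h3⟩ := union_bound2 (((univ : Finset (Fin 3)) ×ˢ (univ : Finset (Fin 3)) ×ˢ
    All.powerset ×ˢ All.powerset).filter
      (fun x => isMod x.1 k x.2.1 ∧ ok x.2.2.1 2)) k
    (fun x Q t => condM x.1 k x.2.1 x.2.2.1 x.2.2.2 Q t.1 t.2) ε (fun x hx => by
      rw [mem_filter] at hx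
      simp only [mem_product, mem_powerset] at hx
      exact countM _ _ _ hx.2.1 _ _ hx.2.2 hx.1.2.2.2 ε hε)
  refine ⟨C1 + C2 + C3, by positivity, ?_⟩
  intro V hV X hX Q hQ S hS
  set S1 := S.filter (fun t => condT k Q t.1 t.2) with hS1
  set S2 := S.filter (fun t => ∃ p q : Fin 3, k ≠ p ∧ k ≠ q ∧ p ≠ q ∧
    condC p q Q t.1 t.2) with hS2
  set S3 := S.filter (fun t => ∃ (r p : Fin 3) (J I : Finset ℕ), isMod r k p ∧ ok J 2 ∧ I ⊆ All ∧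
      condM r k p J I Q t.1 t.2) with hS3
  have hsub : S ⊆ S1 ∪ (S2 ∪ S3) := by
    intro t ht
    rcases (hS t ht).2.2 with h | h | h
    · exact mem_union_left _ (mem_filter.mpr ⟨ht, h⟩)
    · exact mem_union_right _ (mem_union_left _ (mem_filter.mpr ⟨ht, h⟩))
    · exact mem_union_right _ (mem_union_right _ (mem_filter.mpr ⟨ht, h⟩))
  have hc : (S.card : ℝ) ≤ S1.card + (S2.card + S3.card) := by
    have := (card_le_card hsub).trans ((card_union_le _ _).trans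
      (Nat.add_le_add_left (card_union_le _ _) _))
    exact_mod_cast this
  have b1 := h1 X hX Q hQ S1 (fun t ht => by
    rw [hS1, mem_filter] at ht
    exact ⟨(hS t ht.1).1, ht.2⟩)
  have b2 := h2 V hV X hX Q hQ S2 (fun t ht => by
    rw [hS2, mem_filter] at ht
    obtain ⟨p, q, e1, e2, e3, hr⟩ := ht.2
    exact ⟨(hS t ht.1).1, (hS t ht.1).2.1, (p, q), mem_filter.mpr ⟨mem_univ _, e1, e2, e3⟩, hr⟩)
  have b3 := h3 V hV X hX Q hQ S3 (fun t ht => by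
    rw [hS3, mem_filter] at ht
    obtain ⟨r, p, J, I, e1, e2, e3, hr⟩ := ht.2
    refine ⟨(hS t ht.1).1, (hS t ht.1).2.1, (r, p, J, I), mem_filter.mpr ⟨?_, e1, e2⟩, hr⟩
    simp only [mem_product, mem_powerset, mem_univ, true_and]
    exact ⟨e2.1, e3⟩)
  calc (S.card : ℝ) ≤ _ := hc
    _ ≤ C1 * (X : ℝ) ^ ε * Q + (C2 * (X : ℝ) ^ ε * Q + C3 * (X : ℝ) ^ ε * Q) := by linarith
    _ = _ := by ring

theorem anyCond2_mono (k : Fin 3) {Q Q' : ℝ} (hQ : Q ≤ Q') {a b : ℕ} (h : anyCond2 k Q a b) :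
    anyCond2 k Q' a b := by
  rcases h with h | ⟨p, q, e1, e2, e3, h⟩ | ⟨r, p, J, I, e1, e2, e3, h⟩
  · exact Or.inl (le_trans h hQ)
  · exact Or.inr (Or.inl ⟨p, q, e1, e2, e3, le_trans h hQ⟩)
  · refine Or.inr (Or.inr ⟨r, p, J, I, e1, e2, e3, h.1.trans hQ, h.2.trans ?_⟩)
    exact mul_le_mul_of_nonneg_right hQ (Nat.cast_nonneg _)

/-- the main bound, for fixed roles -/
theorem core_role (k y z : Fin 3) (hky : k ≠ y) (hkz : k ≠ z) (hyz : y ≠ z) (K ε : ℝ)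
    (hε : 0 < ε) :
    ∃ C : ℝ, 0 < C ∧ ∀ V : ℕ, 0 < V → ∀ X : ℕ, 1 ≤ X → ∀ Λ : ℝ, 1 ≤ Λ → ∀ S : Finset (ℕ × ℕ),
      (∀ t ∈ S, Adm X t ∧ isX V k t.1 t.2 ∧
        (rad (side t.1 t.2 y) : ℝ) * rad (side t.1 t.2 z) * Λ ≤
          K * (((side t.1 t.2 y) ^ 2 * side t.1 t.2 z : ℕ) : ℝ) ^ ((1 : ℝ) / 6)) →
      (S.card : ℝ) ≤ C * (X : ℝ) ^ (7 / 16 + ε) * Λ ^ (-(3 / 8) : ℝ) := by
  classical
  set σ : ℝ := ε / 20 with hσdef
  have hσ : 0 < σ := by positivity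
  obtain ⟨C, hC, hcount⟩ := count_any2 k (ε / 2) (by positivity)
  -- threshold
  have ev1 : ∀ᶠ n : ℕ in Filter.atTop, Real.log 2 ≤ σ * Real.log (n : ℝ) := by
    have : Filter.Tendsto (fun n : ℕ => σ * Real.log (n : ℝ)) Filter.atTop Filter.atTop :=
      (Real.tendsto_log_atTop.comp tendsto_natCast_atTop_atTop).const_mul_atTop hσ
    exact this.eventually_ge_atTop _
  have ev2 : ∀ᶠ n : ℕ in Filter.atTop, max K 1 ≤ (n : ℝ) ^ σ := by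
    have : Filter.Tendsto (fun n : ℕ => (n : ℝ) ^ σ) Filter.atTop Filter.atTop :=
      (tendsto_rpow_atTop hσ).comp tendsto_natCast_atTop_atTop
    exact this.eventually_ge_atTop _
  obtain ⟨N, hN⟩ := Filter.eventually_atTop.mp (ev1.and ev2)
  set L0 : ℝ := max K 1 * (((N + 1 : ℕ) : ℝ) ^ 3) ^ ((1 : ℝ) / 6) with hL0
  have hm1 : (1 : ℝ) ≤ max K 1 := le_max_right _ _
  have hL01 : 1 ≤ L0 := by
    rw [hL0]
    have : (1 : ℝ) ≤ (((N + 1 : ℕ) : ℝ) ^ 3) ^ ((1 : ℝ) / 6) := by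
      apply Real.one_le_rpow _ (by norm_num)
      apply one_le_pow₀
      push_cast
      have : (0 : ℝ) ≤ N := Nat.cast_nonneg _
      linarith
    nlinarith
  refine ⟨C + (N : ℝ) ^ 2 * L0 ^ ((3 : ℝ) / 8), by positivity, ?_⟩
  intro V hV X hX Λ hΛ S hS
  have hX1 : (1 : ℝ) ≤ X := by exact_mod_cast hX
  have hX0 : (0 : ℝ) < X := by linarith
  have hΛ0 : 0 < Λ := by linarith
  have hΛn : 0 < Λ ^ (-(3 / 8) : ℝ) := by positivity
  -- sizes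
  have hsize : ∀ t ∈ S, Λ ≤ max K 1 * (((t.1 + t.2 : ℕ) : ℝ) ^ 3) ^ ((1 : ℝ) / 6) := by
    intro t ht
    obtain ⟨hadm, _, hr⟩ := hS t ht
    have h1 : (1 : ℝ) ≤ rad (side t.1 t.2 y) := by exact_mod_cast rad_pos _
    have h2 : (1 : ℝ) ≤ rad (side t.1 t.2 z) := by exact_mod_cast rad_pos _
    have h3 : Λ ≤ (rad (side t.1 t.2 y) : ℝ) * rad (side t.1 t.2 z) * Λ := by
      have : 1 ≤ (rad (side t.1 t.2 y) : ℝ) * rad (side t.1 t.2 z) := by nlinarith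
      nlinarith
    refine h3.trans (hr.trans ?_)
    have h4 : (((side t.1 t.2 y) ^ 2 * side t.1 t.2 z : ℕ) : ℝ) ≤ ((t.1 + t.2 : ℕ) : ℝ) ^ 3 := by
      have : (side t.1 t.2 y) ^ 2 * side t.1 t.2 z ≤ (t.1 + t.2) ^ 3 := by
        calc (side t.1 t.2 y) ^ 2 * side t.1 t.2 z ≤ (t.1 + t.2) ^ 2 * (t.1 + t.2) :=
              Nat.mul_le_mul (Nat.pow_le_pow_left (side_le y) 2) (side_le z)
          _ = _ := by ring
      exact_mod_cast this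
    have h5 : (((side t.1 t.2 y) ^ 2 * side t.1 t.2 z : ℕ) : ℝ) ^ ((1 : ℝ) / 6) ≤
        (((t.1 + t.2 : ℕ) : ℝ) ^ 3) ^ ((1 : ℝ) / 6) :=
      Real.rpow_le_rpow (by positivity) h4 (by norm_num)
    calc K * (((side t.1 t.2 y) ^ 2 * side t.1 t.2 z : ℕ) : ℝ) ^ ((1 : ℝ) / 6)
        ≤ max K 1 * (((side t.1 t.2 y) ^ 2 * side t.1 t.2 z : ℕ) : ℝ) ^ ((1 : ℝ) / 6) := by
          gcongr
          exact le_max_left _ _
      _ ≤ _ := by gcongr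
  set S1 := S.filter (fun t => t.1 + t.2 < N) with hS1
  set S2 := S.filter (fun t => ¬ t.1 + t.2 < N) with hS2
  have hsplit : S.card = S1.card + S2.card := (card_filter_add_card_filter_not _).symm
  have hXe : (1 : ℝ) ≤ (X : ℝ) ^ (7 / 16 + ε) := Real.one_le_rpow hX1 (by linarith)
  have hb1 : (S1.card : ℝ) ≤ (N : ℝ) ^ 2 * L0 ^ ((3 : ℝ) / 8) * Λ ^ (-(3 / 8) : ℝ) := by
    rcases S1.eq_empty_or_nonempty with he | ⟨t, ht⟩
    · rw [he, card_empty, Nat.cast_zero]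
      positivity
    have hsub : S1 ⊆ range N ×ˢ range N := by
      intro t ht
      rw [hS1, mem_filter] at ht
      rw [mem_product, mem_range, mem_range]
      omega
    have h := card_le_card hsub
    rw [card_product, card_range] at h
    have h' : (S1.card : ℝ) ≤ ((N * N : ℕ) : ℝ) := by exact_mod_cast h
    push_cast at h'
    rw [hS1, mem_filter] at ht
    have hΛL : Λ ≤ L0 := by
      refine (hsize t ht.1).trans ?_
      rw [hL0]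
      have : ((t.1 + t.2 : ℕ) : ℝ) ≤ ((N + 1 : ℕ) : ℝ) := by
        have := ht.2
        exact_mod_cast (by omega : t.1 + t.2 ≤ N + 1)
      gcongr
    have h8 : 1 ≤ L0 ^ ((3 : ℝ) / 8) * Λ ^ (-(3 / 8) : ℝ) := by
      have h9 : Λ ^ ((3 : ℝ) / 8) ≤ L0 ^ ((3 : ℝ) / 8) :=
        Real.rpow_le_rpow hΛ0.le hΛL (by norm_num)
      have h10 : Λ ^ ((3 : ℝ) / 8) * Λ ^ (-(3 / 8) : ℝ) = 1 := by
        rw [← Real.rpow_add hΛ0]; norm_num
      rw [← h10]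
      gcongr
    have hN2 : (0 : ℝ) ≤ (N : ℝ) ^ 2 := by positivity
    calc (S1.card : ℝ) ≤ (N : ℝ) ^ 2 := by nlinarith
      _ ≤ (N : ℝ) ^ 2 * (L0 ^ ((3 : ℝ) / 8) * Λ ^ (-(3 / 8) : ℝ)) := le_mul_of_one_le_right hN2 h8
      _ = _ := by ring
  have hb2 : (S2.card : ℝ) ≤ C * (X : ℝ) ^ (7 / 16 + ε) * Λ ^ (-(3 / 8) : ℝ) := by
    rcases S2.eq_empty_or_nonempty with he | hne
    · rw [he, card_empty, Nat.cast_zero]
      positivity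
    have hθ0 : (0 : ℝ) ≤ 7 / 16 + 10 * σ := by positivity
    have hmain : ∀ t ∈ S2, 1 ≤ ((t.1 + t.2 : ℕ) : ℝ) ^ (7 / 16 + 10 * σ) * Λ ^ (-(3 / 8) : ℝ) ∧
        ((t.1 + t.2 : ℕ) : ℝ) ^ (7 / 16 + 10 * σ) * Λ ^ (-(3 / 8) : ℝ) ≤
          (X : ℝ) ^ (7 / 16 + 10 * σ) * Λ ^ (-(3 / 8) : ℝ) ∧
        anyCond2 k (((t.1 + t.2 : ℕ) : ℝ) ^ (7 / 16 + 10 * σ) * Λ ^ (-(3 / 8) : ℝ)) t.1 t.2 := by
      intro t ht
      rw [hS2, mem_filter] at ht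
      obtain ⟨hadm, hx, hr⟩ := hS t ht.1
      have hn : N ≤ t.1 + t.2 := by omega
      obtain ⟨e1, e2⟩ := hN _ hn
      have hsz := hsize t ht.1
      obtain ⟨ha, hab, hcop, hle⟩ := hadm
      set c : ℝ := ((t.1 + t.2 : ℕ) : ℝ) with hc
      have hc1 : (1 : ℝ) ≤ c := by
        have : 1 ≤ t.1 + t.2 := by omega
        rw [hc]
        exact_mod_cast this
      have hc0 : 0 < c := by linarith
      have hcX : c ≤ X := by rw [hc]; exact_mod_cast hle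
      refine ⟨?_, ?_, ?_⟩
      · have h1 : Λ ≤ c ^ (σ + 1 / 2) := by
          refine hsz.trans ?_
          have h2 : (c ^ 3) ^ ((1 : ℝ) / 6) = c ^ ((1 : ℝ) / 2) := by
            rw [← Real.rpow_natCast c 3, ← Real.rpow_mul hc0.le]
            norm_num
          rw [h2, Real.rpow_add hc0]
          gcongr
        have h3 : Λ ^ ((3 : ℝ) / 8) ≤ c ^ (7 / 16 + 10 * σ) := by
          calc Λ ^ ((3 : ℝ) / 8) ≤ (c ^ (σ + 1 / 2)) ^ ((3 : ℝ) / 8) :=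
                Real.rpow_le_rpow hΛ0.le h1 (by norm_num)
            _ = c ^ ((σ + 1 / 2) * (3 / 8)) := by rw [← Real.rpow_mul hc0.le]
            _ ≤ _ := Real.rpow_le_rpow_of_exponent_le hc1 (by nlinarith)
        have h10 : Λ ^ ((3 : ℝ) / 8) * Λ ^ (-(3 / 8) : ℝ) = 1 := by
          rw [← Real.rpow_add hΛ0]; norm_num
        rw [← h10]
        gcongr
      · gcongr
      · exact key2 k y z hky hkz hyz σ K Λ hσ.le hΛ t.1 t.2 ha hab e1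
          ((le_max_left _ _).trans e2) hr
    obtain ⟨t0, ht0⟩ := hne
    obtain ⟨g1, g2, _⟩ := hmain t0 ht0
    have h := hcount V hV X hX ((X : ℝ) ^ (7 / 16 + 10 * σ) * Λ ^ (-(3 / 8) : ℝ)) (g1.trans g2) S2
      (fun t ht => by
        have hm := hmain t ht
        rw [hS2, mem_filter] at ht
        obtain ⟨hadm, hx, hr⟩ := hS t ht.1
        exact ⟨hadm, hx, anyCond2_mono k hm.2.1 hm.2.2⟩)
    have hexp : (X : ℝ) ^ (ε / 2) * (X : ℝ) ^ (7 / 16 + 10 * σ) = (X : ℝ) ^ (7 / 16 + ε) := by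
      rw [← Real.rpow_add hX0]
      congr 1
      rw [hσdef]
      ring
    calc (S2.card : ℝ) ≤ _ := h
      _ = C * ((X : ℝ) ^ (ε / 2) * (X : ℝ) ^ (7 / 16 + 10 * σ)) * Λ ^ (-(3 / 8) : ℝ) := by ring
      _ = _ := by rw [hexp]
  rw [hsplit]
  push_cast
  have hA : 0 ≤ (N : ℝ) ^ 2 * L0 ^ ((3 : ℝ) / 8) * Λ ^ (-(3 / 8) : ℝ) := by positivity
  calc (S1.card : ℝ) + S2.card ≤ (N : ℝ) ^ 2 * L0 ^ ((3 : ℝ) / 8) * Λ ^ (-(3 / 8) : ℝ) +
        C * (X : ℝ) ^ (7 / 16 + ε) * Λ ^ (-(3 / 8) : ℝ) := add_le_add hb1 hb2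
    _ ≤ ((N : ℝ) ^ 2 * L0 ^ ((3 : ℝ) / 8) * Λ ^ (-(3 / 8) : ℝ)) * (X : ℝ) ^ (7 / 16 + ε) +
        C * (X : ℝ) ^ (7 / 16 + ε) * Λ ^ (-(3 / 8) : ℝ) := by
      have := le_mul_of_one_le_right hA hXe
      linarith
    _ = _ := by ring

end Pool.Agent.H925R.Two
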