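import Pool.Agent.H925R.Two.Count
import Pool.Agent.H925R.Szpiro.SemiCount

/-!
# Semistable curves with a rational 2-torsion point
-/

set_option autoImplicit false
set_option linter.unusedVariables false

namespace Pool.Agent.H925R.Two

open Finset
open Pool.Agent.H328R2.ABC
open Pool.Agent.H925R.Szpiro (cond int_root)

/-- the coprime triple attached to `A² = 4B + (A² - 4B)` -/
theorem triple_of (A B : ℤ) (hA0 : A ≠ 0) (hB0 : B ≠ 0) (hC0 : A ^ 2 - 4 * B ≠ 0) :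
    ∃ (G x y z : ℕ) (sB : ℤ), (sB = 1 ∨ sB = -1) ∧ 0 < G ∧ 0 < x ∧ 0 < y ∧ 0 < z ∧
      Nat.Coprime y z ∧ (x + y = z ∨ x + z = y ∨ y + z = x) ∧
      G ∣ A.natAbs ^ 2 ∧ G ∣ 4 * B.natAbs ∧
      A ^ 2 = (G : ℤ) * x ∧ 4 * B = sB * ((G : ℤ) * y) ∧ |A ^ 2 - 4 * B| = (G : ℤ) * z := by
  set An : ℕ := A.natAbs with hAn
  set Bn : ℕ := B.natAbs with hBn
  have hAn0 : An ≠ 0 := Int.natAbs_ne_zero.mpr hA0
  have hBn0 : Bn ≠ 0 := Int.natAbs_ne_zero.mpr hB0
  have hAsq : A ^ 2 = ((An ^ 2 : ℕ) : ℤ) := by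
    rw [hAn]; push_cast; rw [sq_abs]
  set G : ℕ := Nat.gcd (An ^ 2) (4 * Bn) with hG
  have hGpos : 0 < G := Nat.gcd_pos_of_pos_left _ (by positivity)
  obtain ⟨x, hx⟩ : G ∣ An ^ 2 := Nat.gcd_dvd_left _ _
  obtain ⟨y, hy⟩ : G ∣ 4 * Bn := Nat.gcd_dvd_right _ _
  have hx0 : 0 < x := Nat.pos_of_ne_zero (fun h => by
    rw [h, mul_zero] at hx
    exact hAn0 (pow_eq_zero_iff (by norm_num) |>.mp hx))
  have hy0 : 0 < y := Nat.pos_of_ne_zero (fun h => by rw [h, mul_zero] at hy; omega)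
  have hxy : Nat.Coprime x y := by
    have := Nat.coprime_div_gcd_div_gcd (m := An ^ 2) (n := 4 * Bn) hGpos
    rw [← hG, hx, hy, Nat.mul_div_cancel_left _ hGpos, Nat.mul_div_cancel_left _ hGpos] at this
    exact this
  obtain ⟨sB, hsB, hBs⟩ : ∃ sB : ℤ, (sB = 1 ∨ sB = -1) ∧ B = sB * (Bn : ℤ) := by
    rcases le_total 0 B with h0 | h0
    · exact ⟨1, Or.inl rfl, by rw [hBn, Int.natCast_natAbs, abs_of_nonneg h0]; ring⟩
    · exact ⟨-1, Or.inr rfl, by rw [hBn, Int.natCast_natAbs, abs_of_nonpos h0]; ring⟩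
  have h4B : 4 * B = sB * ((G : ℤ) * y) := by
    have : ((4 * Bn : ℕ) : ℤ) = ((G * y : ℕ) : ℤ) := by rw [hy]
    push_cast at this
    rw [hBs, ← this]; ring
  have hA2 : A ^ 2 = (G : ℤ) * x := by
    rw [hAsq, hx]; push_cast; ring
  have hC : A ^ 2 - 4 * B = (G : ℤ) * ((x : ℤ) - sB * y) := by
    rw [hA2, h4B]; ring
  set z : ℕ := ((x : ℤ) - sB * y).natAbs with hz
  have hz0 : 0 < z := by
    rw [hz]
    apply Nat.pos_of_ne_zero
    rw [Int.natAbs_ne_zero]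
    intro h
    apply hC0
    rw [hC, h, mul_zero]
  have hCz : |A ^ 2 - 4 * B| = (G : ℤ) * z := by
    rw [hC, abs_mul, hz, Int.natCast_natAbs]
    congr 1
    exact abs_of_nonneg (by positivity)
  have hrel : x + y = z ∨ x + z = y ∨ y + z = x := by
    rcases hsB with h | h
    · rw [h, one_mul] at hz
      rcases le_total x y with h1 | h1
      · right; left; omega
      · right; right; omega
    · rw [h] at hz
      left; omega
  have hyz : Nat.Coprime y z := by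
    rcases hrel with h | h | h
    · rw [← h]
      simpa using hxy.symm
    · have : y = z + x := by omega
      rw [this] at hxy ⊢
      have h9 : Nat.Coprime x z := by simpa [Nat.coprime_add_self_right] using hxy
      simpa using h9
    · rw [← h] at hxy
      have : Nat.Coprime z y := by simpa [Nat.coprime_comm] using hxy
      exact this.symm
  exact ⟨G, x, y, z, sB, hsB, hGpos, hx0, hy0, hz0, hyz, hrel, Nat.gcd_dvd_left _ _,
    Nat.gcd_dvd_right _ _, hA2, h4B, hCz⟩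

theorem le_64 (n : ℕ) (hn : 0 < n) (h1 : ∀ p : ℕ, p.Prime → p ∣ n → p = 2) (h2 : ¬ 2 ^ 7 ∣ n) :
    n ≤ 64 := by
  obtain ⟨k, hk⟩ : ∃ k, n = 2 ^ k := by
    refine ⟨n.primeFactorsList.length, ?_⟩
    exact Nat.eq_prime_pow_of_unique_prime_dvd hn.ne' (fun {d} hd hdn => h1 d hd hdn)
  have hk6 : k ≤ 6 := by
    by_contra hcon
    push Not at hcon
    apply h2
    rw [hk]
    exact pow_dvd_pow 2 hcon
  rw [hk]
  calc 2 ^ k ≤ 2 ^ 6 := Nat.pow_le_pow_right (by norm_num) hk6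
    _ = 64 := by norm_num

/-- a rational point of order 2 -/
def HasTwo (W : WeierstrassCurve ℤ) : Prop :=
  ∃ r : ℚ, 4 * r ^ 3 + W.b₂ * r ^ 2 + 2 * W.b₄ * r + W.b₆ = 0

/-- the invariants in terms of `A`, `B` -/
theorem inv_AB (W : WeierstrassCurve ℤ) (h : HasTwo W) : ∃ A B : ℤ,
    W.c₄ = A ^ 2 - 3 * B ∧ 2 * W.c₆ = A * (9 * B - 2 * A ^ 2) ∧
      256 * W.Δ = B ^ 2 * (A ^ 2 - 4 * B) := by
  obtain ⟨r, hr⟩ := h
  obtain ⟨t, ht⟩ : ∃ z : ℤ, (z : ℚ) = 4 * r := by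
    refine int_root W.b₂ (8 * W.b₄) (16 * W.b₆) (4 * r) ?_
    push_cast
    linear_combination 16 * hr
  have htz : t ^ 3 + W.b₂ * t ^ 2 + 8 * W.b₄ * t + 16 * W.b₆ = 0 := by
    have : (t : ℚ) ^ 3 + W.b₂ * t ^ 2 + 8 * W.b₄ * t + 16 * W.b₆ = 0 := by
      rw [ht]
      linear_combination 16 * hr
    exact_mod_cast this
  refine ⟨3 * t + W.b₂, 3 * t ^ 2 + 2 * W.b₂ * t + 8 * W.b₄, ?_, ?_, ?_⟩
  · unfold WeierstrassCurve.c₄
    ring
  · unfold WeierstrassCurve.c₆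
    linear_combination (-27) * htz
  · have h8 := W.b_relation
    have hd : W.Δ = -W.b₂ ^ 2 * W.b₈ - 8 * W.b₄ ^ 3 - 27 * W.b₆ ^ 2 + 9 * W.b₂ * W.b₄ * W.b₆ := rfl
    have e : 256 * W.Δ = -W.b₂ ^ 2 * (64 * (W.b₂ * W.b₆ - W.b₄ ^ 2)) - 4 * (8 * W.b₄) ^ 3
        - 27 * (16 * W.b₆) ^ 2 + 18 * W.b₂ * (8 * W.b₄) * (16 * W.b₆) := by
      rw [hd]
      linear_combination (-64 * W.b₂ ^ 2) * h8
    have e2 : 64 * (W.b₂ * W.b₆ - W.b₄ ^ 2) = 4 * W.b₂ * (16 * W.b₆) - (8 * W.b₄) ^ 2 := by ring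
    have e3 : 16 * W.b₆ = -(t ^ 3 + W.b₂ * t ^ 2 + 8 * W.b₄ * t) := by linarith
    rw [e, e2, e3]
    ring

/-- the exceptional classes -/
def ExcSm (c₀ : ℝ) (X : ℕ) : Set (ℤ × ℤ) :=
  {q | ∃ W : WeierstrassCurve ℤ, W.Δ ≠ 0 ∧ IsCoprime W.c₄ W.Δ ∧ HasTwo W ∧ q = (W.c₄, W.c₆) ∧
    |W.c₄| ^ 3 ≤ (X : ℤ) ^ 6 ∧ W.c₆ ^ 2 ≤ (X : ℤ) ^ 6 ∧ c₀ * (cond W : ℝ) ^ 6 < |(W.Δ : ℝ)|}

/-- the finite set of `(G, t)` -/
noncomputable def FS (K : ℝ) (M : ℕ) : Finset (ℕ × (ℕ × (ℕ × ℕ))) := by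
  classical
  exact ((Icc 1 64) ×ˢ (Icc 1 M ×ˢ (Icc 1 M ×ˢ Icc 1 M))).filter
    (fun u => TCond K (sqf u.1) M 1 u.2)

/-- the invariants attached to `((sA, sB), (G, t))` -/
def mdlS (u : (ℤ × ℤ) × (ℕ × (ℕ × (ℕ × ℕ)))) : ℤ × ℤ :=
  let A : ℤ := u.1.1 * ((Nat.sqrt (u.2.1 * u.2.2.1) : ℕ) : ℤ)
  let B : ℤ := u.1.2 * ((u.2.1 : ℤ) * (u.2.2.2.1 : ℤ)) / 4
  (A ^ 2 - 3 * B, A * (9 * B - 2 * A ^ 2) / 2)

theorem odd_prime_256 {p : ℕ} (hp : p.Prime) (h2 : p ≠ 2) {n : ℤ} (h : (p : ℤ) ∣ 256 * n) :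
    (p : ℤ) ∣ n := by
  have hpc : IsCoprime (p : ℤ) 256 := by
    have : Nat.Coprime p 256 := by
      have : (256 : ℕ) = 2 ^ 8 := by norm_num
      rw [this]
      exact Nat.Coprime.pow_right _ ((Nat.coprime_primes hp Nat.prime_two).mpr h2)
    exact_mod_cast Nat.isCoprime_iff_coprime.mpr this
  exact hpc.dvd_of_dvd_mul_left h

theorem semi_mem (c₀ : ℝ) (hc₀ : 0 < c₀) (X : ℕ) (hX : 1 ≤ X) (q : ℤ × ℤ) (hq : q ∈ ExcSm c₀ X) :
    q.2 = 0 ∧ |q.1| ≤ 48 ∨
    ∃ (sA sB : ℤ) (u : ℕ × (ℕ × (ℕ × ℕ))), (sA = 1 ∨ sA = -1) ∧ (sB = 1 ∨ sB = -1) ∧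
      u ∈ FS ((4096 / c₀) ^ ((1 : ℝ) / 6)) (7 * X ^ 2) ∧ mdlS ((sA, sB), u) = q := by
  classical
  obtain ⟨W, hΔ, hco, htwo, rfl, h4, h6, hbig⟩ := hq
  obtain ⟨A, B, e4, e6, eD⟩ := inv_AB W htwo
  have hB0 : B ≠ 0 := by
    rintro rfl
    apply hΔ
    have : 256 * W.Δ = 0 := by rw [eD]; ring
    omega
  have hC0 : A ^ 2 - 4 * B ≠ 0 := by
    intro h
    apply hΔ
    have : 256 * W.Δ = 0 := by rw [eD, h]; ring
    omega
  -- common divisors
  have hodd : ∀ p : ℕ, p.Prime → p ≠ 2 → ¬ ((p : ℤ) ∣ A ∧ (p : ℤ) ∣ B) := by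
    rintro p hp h2 ⟨hA, hB⟩
    have h1 : (p : ℤ) ∣ W.c₄ := by
      rw [e4]
      exact dvd_sub (hA.pow (by norm_num)) (hB.mul_left 3)
    have h3 : (p : ℤ) ∣ 256 * W.Δ := by
      rw [eD]
      exact (hB.pow (by norm_num)).mul_right _
    have := hco.isUnit_of_dvd' h1 (odd_prime_256 hp h2 h3)
    rw [Int.isUnit_iff] at this
    have := hp.two_le
    omega
  have htwo' : ¬ ((2 : ℤ) ^ 4 ∣ A ∧ (2 : ℤ) ^ 5 ∣ B) := by
    rintro ⟨⟨k, hk⟩, ⟨l, hl⟩⟩
    have h1 : (2 : ℤ) ∣ W.c₄ := by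
      rw [e4, hk, hl]
      exact ⟨128 * k ^ 2 - 48 * l, by ring⟩
    have h3 : (2 : ℤ) ∣ W.Δ := by
      rw [hk, hl] at eD
      refine ⟨l ^ 2 * (512 * k ^ 2 - 256 * l), ?_⟩
      have : 256 * W.Δ = 256 * (2 * (l ^ 2 * (512 * k ^ 2 - 256 * l))) := by
        rw [eD]; ring
      exact mul_left_cancel₀ (by norm_num) this
    have := hco.isUnit_of_dvd' h1 h3
    rw [Int.isUnit_iff] at this
    omega
  by_cases hA0 : A = 0
  · -- degenerate case
    left
    have hb : 4 * B.natAbs ≤ 64 := by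
      refine le_64 _ (by have := Int.natAbs_pos.mpr hB0; omega) ?_ ?_
      · intro p hp hpn
        by_contra h2
        have h3 : p ^ 1 ∣ 4 * B.natAbs := by rw [pow_one]; exact hpn
        have h4 : p ^ 1 ∣ B.natAbs := by
          have hc : Nat.Coprime (p ^ 1) 4 := by
            have : Nat.Coprime p 2 := (Nat.coprime_primes hp Nat.prime_two).mpr h2
            have h4 : Nat.Coprime p (2 ^ 2) := Nat.Coprime.pow_right _ this
            rw [pow_one]
            norm_num at h4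
            exact h4
          exact hc.dvd_of_dvd_mul_left h3
        rw [pow_one] at h4
        exact hodd p hp h2 ⟨by rw [hA0]; exact dvd_zero _, Int.natCast_dvd.mpr h4⟩
      · intro h
        have h5 : 2 ^ 5 ∣ B.natAbs := by
          obtain ⟨q, hq⟩ := h
          exact ⟨q, by omega⟩
        have h6 : ((2 ^ 5 : ℕ) : ℤ) ∣ B := Int.natCast_dvd.mpr h5
        exact htwo' ⟨by rw [hA0]; exact dvd_zero _, by exact_mod_cast h6⟩
    constructor
    · simp only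
      rw [hA0] at e6
      have : 2 * W.c₆ = 0 := by rw [e6]; ring
      omega
    · simp only
      rw [hA0] at e4
      have h1 : W.c₄ = -3 * B := by rw [e4]; ring
      rw [h1]
      have h2 : |B| ≤ 16 := by
        have : ((B.natAbs : ℕ) : ℤ) ≤ 16 := by
          have : B.natAbs ≤ 16 := by omega
          exact_mod_cast this
        rwa [Int.natCast_natAbs] at this
      rw [abs_mul]
      norm_num
      linarith
  · right
    obtain ⟨G, x, y, z, sB, hsB, hG, hx0, hy0, hz0, hyz, hrel, hGA, hGB, hA2, h4B, hCz⟩ :=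
      triple_of A B hA0 hB0 hC0
    have hG64 : G ≤ 64 := by
      refine le_64 G hG ?_ ?_
      · intro p hp hpn
        by_contra h2
        have d1 : p ∣ A.natAbs := hp.dvd_of_dvd_pow (hpn.trans hGA)
        have d2 : p ∣ B.natAbs := by
          have hc : Nat.Coprime p 4 := by
            have : Nat.Coprime p 2 := (Nat.coprime_primes hp Nat.prime_two).mpr h2
            have h4 : Nat.Coprime p (2 ^ 2) := Nat.Coprime.pow_right _ this
            norm_num at h4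
            exact h4
          exact hc.dvd_of_dvd_mul_left (hpn.trans hGB)
        exact hodd p hp h2 ⟨Int.natCast_dvd.mpr d1, Int.natCast_dvd.mpr d2⟩
      · intro h
        have d1 : 2 ^ (2 * 4 - 1) ∣ A.natAbs ^ 2 := h.trans hGA
        have d2 := pow_dvd_of_sq Nat.prime_two (Int.natAbs_ne_zero.mpr hA0) (by norm_num) d1
        have d3 : 2 ^ 5 ∣ B.natAbs := by
          obtain ⟨q, hq⟩ := h.trans hGB
          exact ⟨q, by omega⟩
        have e1 : ((2 ^ 4 : ℕ) : ℤ) ∣ A := Int.natCast_dvd.mpr d2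
        have e2 : ((2 ^ 5 : ℕ) : ℤ) ∣ B := Int.natCast_dvd.mpr d3
        exact htwo' ⟨by exact_mod_cast e1, by exact_mod_cast e2⟩
    -- sizes
    have hX1 : (1 : ℤ) ≤ X := by exact_mod_cast hX
    have hc4 : |W.c₄| ≤ (X : ℤ) ^ 2 := by
      by_contra hcon
      push Not at hcon
      have : ((X : ℤ) ^ 2) ^ 3 < |W.c₄| ^ 3 := pow_lt_pow_left₀ hcon (by positivity) (by norm_num)
      have e : ((X : ℤ) ^ 2) ^ 3 = (X : ℤ) ^ 6 := by ring
      rw [e] at this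
      exact absurd h4 (not_le.mpr this)
    have hc6 : |W.c₆| ≤ (X : ℤ) ^ 3 := by
      apply abs_le_of_sq_le_sq _ (by positivity)
      calc W.c₆ ^ 2 ≤ (X : ℤ) ^ 6 := h6
        _ = _ := by ring
    have hAX : |A| ≤ 2 * X := by
      by_contra hcon
      push Not at hcon
      have h7 : A ^ 3 = 3 * W.c₄ * A + 2 * W.c₆ := by rw [e6, e4]; ring
      have h8 : |A| ^ 3 ≤ 3 * (X : ℤ) ^ 2 * |A| + 2 * (X : ℤ) ^ 3 := by
        calc |A| ^ 3 = |A ^ 3| := (abs_pow A 3).symm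
          _ = |3 * W.c₄ * A + 2 * W.c₆| := by rw [h7]
          _ ≤ |3 * W.c₄ * A| + |2 * W.c₆| := abs_add_le _ _
          _ = 3 * |W.c₄| * |A| + 2 * |W.c₆| := by
              rw [abs_mul, abs_mul, abs_mul]; norm_num
          _ ≤ _ := by
              have := mul_le_mul_of_nonneg_right hc4 (abs_nonneg A)
              nlinarith
      set t := |A|
      have h9 : 0 < t - 2 * X := by linarith
      have h10 : 0 < (t - 2 * X) * (t + X) ^ 2 := by positivity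
      nlinarith
    have hA2X : A ^ 2 ≤ 4 * (X : ℤ) ^ 2 := by
      rw [← sq_abs A]
      nlinarith [abs_nonneg A]
    have hA2n : 0 ≤ A ^ 2 := sq_nonneg A
    obtain ⟨c4l, c4u⟩ := abs_le.mp hc4
    have hGx : G * x ≤ 7 * X ^ 2 := by
      have : ((G * x : ℕ) : ℤ) ≤ ((7 * X ^ 2 : ℕ) : ℤ) := by
        push_cast
        rw [← hA2]
        nlinarith [sq_nonneg (X : ℤ)]
      exact_mod_cast this
    have hGy : G * y ≤ 7 * X ^ 2 := by
      have e1 : ((G : ℤ) * y) = |4 * B| := by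
        rw [h4B, abs_mul]
        have e3 : |sB| = 1 := by rcases hsB with h | h <;> rw [h] <;> norm_num
        rw [e3, one_mul]
        exact (abs_of_nonneg (by positivity)).symm
      have : ((G * y : ℕ) : ℤ) ≤ ((7 * X ^ 2 : ℕ) : ℤ) := by
        push_cast
        rw [e1, abs_le]
        constructor <;> nlinarith [sq_nonneg (X : ℤ)]
      exact_mod_cast this
    have hGz : G * z ≤ 7 * X ^ 2 := by
      have : ((G * z : ℕ) : ℤ) ≤ ((7 * X ^ 2 : ℕ) : ℤ) := by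
        push_cast
        rw [← hCz, abs_le]
        constructor <;> nlinarith [sq_nonneg (X : ℤ)]
      exact_mod_cast this
    have hMw : ∀ w : ℕ, G * w ≤ 7 * X ^ 2 → w ≤ 7 * X ^ 2 := by
      intro w hw
      calc w = 1 * w := (one_mul w).symm
        _ ≤ G * w := Nat.mul_le_mul_right _ hG
        _ ≤ _ := hw
    -- square
    have e1 : G * x = A.natAbs ^ 2 := by
      have : ((G * x : ℕ) : ℤ) = ((A.natAbs ^ 2 : ℕ) : ℤ) := by
        push_cast
        rw [← hA2, sq_abs]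
      exact_mod_cast this
    have hsqr := sqf_sq G x A.natAbs hG hx0 (by rw [mul_comm]; exact e1)
    -- radical
    have hcondW : rad (y * z) ≤ 2 * cond W := by
      have hsub : (y * z).primeFactors ⊆ insert 2 W.Δ.natAbs.primeFactors := by
        intro p hp
        have hpp := Nat.prime_of_mem_primeFactors hp
        have hpn := Nat.dvd_of_mem_primeFactors hp
        rw [mem_insert]
        by_cases h2 : p = 2
        · exact Or.inl h2
        · right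
          have h3 : (p : ℤ) ∣ 256 * W.Δ := by
            rw [eD]
            rcases hpp.dvd_mul.mp hpn with h | h
            · have h4 : (p : ℤ) ∣ 4 * B := by
                rw [h4B]
                exact Dvd.dvd.mul_left (Dvd.dvd.mul_left (by exact_mod_cast h) _) _
              have hc : IsCoprime (p : ℤ) 4 := by
                have : Nat.Coprime p 2 := (Nat.coprime_primes hpp Nat.prime_two).mpr h2
                have h4 : Nat.Coprime p (2 ^ 2) := Nat.Coprime.pow_right _ this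
                norm_num at h4
                exact_mod_cast Nat.isCoprime_iff_coprime.mpr h4
              exact ((hc.dvd_of_dvd_mul_left h4).pow (by norm_num)).mul_right _
            · refine Dvd.dvd.mul_left ?_ _
              rw [← dvd_abs, hCz]
              exact Dvd.dvd.mul_left (by exact_mod_cast h) _
          exact Nat.mem_primeFactors.mpr ⟨hpp, Int.natCast_dvd.mp (odd_prime_256 hpp h2 h3),
            Int.natAbs_ne_zero.mpr hΔ⟩
      have h1 : rad (y * z) ≤ ∏ p ∈ insert 2 W.Δ.natAbs.primeFactors, p := by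
        refine prod_le_prod_of_subset_of_one_le' hsub ?_
        intro p hp _
        rw [mem_insert] at hp
        rcases hp with rfl | hp
        · norm_num
        · exact (Nat.prime_of_mem_primeFactors hp).one_le
      refine h1.trans ?_
      by_cases h2 : 2 ∈ W.Δ.natAbs.primeFactors
      · rw [insert_eq_of_mem h2]
        unfold Pool.Agent.H925R.Szpiro.cond
        have : 0 < ∏ p ∈ W.Δ.natAbs.primeFactors, p :=
          prod_pos (fun p hp => (Nat.prime_of_mem_primeFactors hp).pos)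
        omega
      · rw [prod_insert h2]
        exact le_refl _
    have hΔR : |(W.Δ : ℝ)| ≤ 64 * ((y ^ 2 * z : ℕ) : ℝ) := by
      have e5 : 16 * |256 * W.Δ| = (G : ℤ) ^ 3 * (y ^ 2 * z) := by
        have : 16 * |256 * W.Δ| = |(4 * B) ^ 2| * |A ^ 2 - 4 * B| := by
          rw [eD, ← abs_mul]
          have : (4 * B) ^ 2 * (A ^ 2 - 4 * B) = 16 * (B ^ 2 * (A ^ 2 - 4 * B)) := by ring
          rw [this, abs_mul]
          norm_num
        rw [this, hCz, h4B, mul_pow]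
        have e3 : sB ^ 2 = 1 := by rcases hsB with h | h <;> rw [h] <;> norm_num
        rw [e3, one_mul, abs_of_nonneg (by positivity : (0 : ℤ) ≤ ((G : ℤ) * y) ^ 2)]
        ring
      have e6 : 16 * |256 * W.Δ| = 4096 * |W.Δ| := by
        rw [abs_mul]
        norm_num
        ring
      have e7 : 4096 * |W.Δ| ≤ 64 ^ 3 * ((y : ℤ) ^ 2 * z) := by
        rw [← e6, e5]
        have : (G : ℤ) ^ 3 ≤ 64 ^ 3 := pow_le_pow_left₀ (by positivity) (by exact_mod_cast hG64) 3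
        exact mul_le_mul_of_nonneg_right this (by positivity)
      have e8 : |W.Δ| ≤ 64 * ((y : ℤ) ^ 2 * z) := by linarith
      have e9 : ((|W.Δ| : ℤ) : ℝ) ≤ ((64 * ((y : ℤ) ^ 2 * z) : ℤ) : ℝ) := by exact_mod_cast e8
      push_cast at e9 ⊢
      exact e9
    have hradR : (rad y : ℝ) * rad z * 1 ≤
        (4096 / c₀) ^ ((1 : ℝ) / 6) * ((y ^ 2 * z : ℕ) : ℝ) ^ ((1 : ℝ) / 6) := by
      have hrr : (rad y : ℝ) * rad z * 1 = rad (y * z) := by
        rw [rad_mul hyz]; push_cast; ring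
      rw [hrr, ← Real.mul_rpow (by positivity) (Nat.cast_nonneg _)]
      have h1 : (rad (y * z) : ℝ) ≤ 2 * (cond W : ℝ) := by exact_mod_cast hcondW
      have h2 : ((rad (y * z) : ℝ)) ^ 6 ≤ 4096 / c₀ * ((y ^ 2 * z : ℕ) : ℝ) := by
        have h3 : ((rad (y * z) : ℝ)) ^ 6 ≤ (2 * (cond W : ℝ)) ^ 6 :=
          pow_le_pow_left₀ (Nat.cast_nonneg _) h1 6
        have h5 : c₀ * (cond W : ℝ) ^ 6 ≤ 64 * ((y ^ 2 * z : ℕ) : ℝ) := hbig.le.trans hΔR
        rw [div_mul_eq_mul_div, le_div_iff₀ hc₀]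
        calc ((rad (y * z) : ℝ)) ^ 6 * c₀ ≤ (2 * (cond W : ℝ)) ^ 6 * c₀ := by gcongr
          _ = 64 * (c₀ * (cond W : ℝ) ^ 6) := by ring
          _ ≤ 64 * (64 * ((y ^ 2 * z : ℕ) : ℝ)) := by linarith
          _ = _ := by ring
      calc (rad (y * z) : ℝ) = (((rad (y * z) : ℝ)) ^ 6) ^ ((1 : ℝ) / 6) := by
            rw [← Real.rpow_natCast, ← Real.rpow_mul (Nat.cast_nonneg _)]
            norm_num
        _ ≤ _ := Real.rpow_le_rpow (by positivity) h2 (by norm_num)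
    obtain ⟨sA, hsA, hsAe⟩ : ∃ sA : ℤ, (sA = 1 ∨ sA = -1) ∧ A = sA * |A| := by
      rcases le_total 0 A with h0 | h0
      · exact ⟨1, Or.inl rfl, by rw [abs_of_nonneg h0]; ring⟩
      · exact ⟨-1, Or.inr rfl, by rw [abs_of_nonpos h0]; ring⟩
    refine ⟨sA, sB, (G, (x, (y, z))), hsA, hsB, ?_, ?_⟩
    · unfold FS
      rw [mem_filter]
      refine ⟨?_, hx0, hy0, hz0, hyz, hrel, hMw x hGx, hMw y hGy, hMw z hGz, hsqr, hradR⟩
      simp only [mem_product, mem_Icc]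
      exact ⟨⟨hG, hG64⟩, ⟨hx0, hMw x hGx⟩, ⟨hy0, hMw y hGy⟩, ⟨hz0, hMw z hGz⟩⟩
    · unfold mdlS
      simp only
      rw [e1, Nat.sqrt_eq', Int.natCast_natAbs, ← hsAe, ← h4B,
        Int.mul_ediv_cancel_left _ (by norm_num : (4 : ℤ) ≠ 0), ← e4, ← e6,
        Int.mul_ediv_cancel_left _ (by norm_num : (2 : ℤ) ≠ 0)]

theorem semi_two_count (c₀ ε : ℝ) (hc₀ : 0 < c₀) (hε : 0 < ε) :
    ∃ C : ℝ, 0 < C ∧ ∀ X : ℕ, 1 ≤ X →
      (ExcSm c₀ X).Finite ∧ ((ExcSm c₀ X).ncard : ℝ) ≤ C * (X : ℝ) ^ (7 / 8 + ε) := by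
  classical
  set K' : ℝ := (4096 / c₀) ^ ((1 : ℝ) / 6) with hK'
  obtain ⟨C1, hC1, h1⟩ := core_triples K' (ε / 2) (by positivity)
  refine ⟨97 + 4 * (64 * (C1 * 7 ^ (7 / 16 + ε / 2))), by positivity, fun X hX => ?_⟩
  have hX1 : (1 : ℝ) ≤ X := by exact_mod_cast hX
  have hX0 : (0 : ℝ) < X := by linarith
  set M : ℕ := 7 * X ^ 2 with hM
  have hM1 : 1 ≤ M := by
    rw [hM]
    have : 1 ≤ X ^ 2 := Nat.one_le_pow _ _ hX
    omega
  have hMR : (M : ℝ) = 7 * (X : ℝ) ^ 2 := by rw [hM]; push_cast; ring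
  set F := FS K' M with hF
  have hFsub : ∀ u ∈ F, u.1 ∈ Icc 1 64 ∧ TCond K' (sqf u.1) M 1 u.2 := by
    intro u hu
    rw [hF] at hu
    unfold FS at hu
    rw [mem_filter, mem_product] at hu
    exact ⟨hu.1.1, hu.2⟩
  set Sg : Finset (ℤ × ℤ) := ({1, -1} : Finset ℤ) ×ˢ ({1, -1} : Finset ℤ) with hSg
  have hSgcard : Sg.card ≤ 4 := by
    rw [hSg, card_product]
    have h2 : ({1, -1} : Finset ℤ).card ≤ 2 := card_le_two
    nlinarith
  set Z : Finset (ℤ × ℤ) := (Icc (-(48 : ℤ)) 48) ×ˢ ({0} : Finset ℤ) with hZ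
  have hZcard : Z.card = 97 := by
    rw [hZ, card_product, card_singleton, mul_one, Int.card_Icc]
    rfl
  have hsub : ExcSm c₀ X ⊆ ((Z ∪ (Sg ×ˢ F).image mdlS : Finset (ℤ × ℤ)) : Set (ℤ × ℤ)) := by
    intro q hq
    rw [mem_coe, mem_union]
    rcases semi_mem c₀ hc₀ X hX q hq with ⟨h2, h3⟩ | ⟨sA, sB, u, hsA, hsB, hu, hm⟩
    · left
      rw [hZ, mem_product, mem_Icc, mem_singleton]
      exact ⟨abs_le.mp h3, h2⟩
    · right
      rw [mem_image]
      refine ⟨((sA, sB), u), ?_, hm⟩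
      rw [mem_product]
      refine ⟨?_, hu⟩
      rw [hSg, mem_product]
      constructor
      · simp only [mem_insert, mem_singleton]
        exact hsA
      · simp only [mem_insert, mem_singleton]
        exact hsB
  have hfin : (ExcSm c₀ X).Finite := Set.Finite.subset (Finset.finite_toSet _) hsub
  refine ⟨hfin, ?_⟩
  have c1 : (ExcSm c₀ X).ncard ≤ (Z ∪ (Sg ×ˢ F).image mdlS).card := by
    rw [← Set.ncard_coe_finset]
    exact Set.ncard_le_ncard hsub (Finset.finite_toSet _)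
  have c2 : (Z ∪ (Sg ×ˢ F).image mdlS).card ≤ 97 + 4 * F.card := by
    refine (card_union_le _ _).trans ?_
    rw [hZcard]
    refine Nat.add_le_add_left ?_ _
    exact card_image_le.trans (by rw [card_product]; exact Nat.mul_le_mul_right _ hSgcard)
  have c3 : ((ExcSm c₀ X).ncard : ℝ) ≤ 97 + 4 * F.card := by exact_mod_cast c1.trans c2
  have e1 : F.card = ∑ κ ∈ Icc 1 64, (F.filter (fun u => u.1 = κ)).card :=
    card_eq_sum_card_fiberwise (fun u hu => (hFsub u hu).1)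
  have e2 : ∀ κ ∈ Icc 1 64, ((F.filter (fun u => u.1 = κ)).card : ℝ) ≤
      C1 * (M : ℝ) ^ (7 / 16 + ε / 2) := by
    intro κ hκ
    rw [mem_Icc] at hκ
    have hinj : Set.InjOn (fun u : ℕ × (ℕ × (ℕ × ℕ)) => u.2)
        (F.filter (fun u => u.1 = κ) : Finset _) := by
      rintro ⟨u, v⟩ hu ⟨u', v'⟩ hu' he
      rw [mem_coe, mem_filter] at hu hu'
      simp only at he hu hu'
      rw [Prod.mk.injEq]
      exact ⟨hu.2.trans hu'.2.symm, he⟩
    have hV : 0 < sqf κ := by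
      obtain ⟨_, _, _, _, h⟩ := sqf_spec κ hκ.1
      exact h
    have := h1 (sqf κ) hV M hM1 1 (le_refl _)
      ((F.filter (fun u => u.1 = κ)).image (fun u => u.2)) (fun t ht => by
        obtain ⟨u, hu, rfl⟩ := mem_image.mp ht
        rw [mem_filter] at hu
        have := (hFsub u hu.1).2
        rw [hu.2] at this
        exact this)
    rw [card_image_of_injOn hinj, Real.one_rpow, mul_one] at this
    exact this
  have e3 : (F.card : ℝ) ≤ 64 * (C1 * (M : ℝ) ^ (7 / 16 + ε / 2)) := by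
    have e5 : (F.card : ℝ) = ∑ κ ∈ Icc 1 64, ((F.filter (fun u => u.1 = κ)).card : ℝ) := by
      rw [← Nat.cast_sum, ← e1]
    have e6 : ∑ κ ∈ Icc 1 64, ((F.filter (fun u => u.1 = κ)).card : ℝ) ≤
        ∑ κ ∈ Icc 1 64, C1 * (M : ℝ) ^ (7 / 16 + ε / 2) := sum_le_sum e2
    have e7 : (Icc 1 64 : Finset ℕ).card = 64 := Nat.card_Icc 1 64
    rw [sum_const, nsmul_eq_mul, e7] at e6
    rw [e5]
    exact e6
  have e4 : (M : ℝ) ^ (7 / 16 + ε / 2) = 7 ^ (7 / 16 + ε / 2) * (X : ℝ) ^ (7 / 8 + ε) := by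
    have e8 : ((2 : ℕ) : ℝ) * (7 / 16 + ε / 2) = 7 / 8 + ε := by push_cast; ring
    rw [hMR, Real.mul_rpow (by norm_num) (by positivity), ← Real.rpow_natCast (X : ℝ) 2,
      ← Real.rpow_mul hX0.le, e8]
  have hone : (1 : ℝ) ≤ (X : ℝ) ^ (7 / 8 + ε) := Real.one_le_rpow hX1 (by linarith)
  rw [e4] at e3
  calc ((ExcSm c₀ X).ncard : ℝ) ≤ 97 + 4 * F.card := c3
    _ ≤ 97 * (X : ℝ) ^ (7 / 8 + ε) +
        4 * (64 * (C1 * (7 ^ (7 / 16 + ε / 2) * (X : ℝ) ^ (7 / 8 + ε)))) := by linarith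
    _ = _ := by ring

end Pool.Agent.H925R.Two
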